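import Pool.Agent.LibFB69.Eng

set_option autoImplicit false

/-!
# Engel bound on abelian sections (helper file for MP_51ab1e_al)
-/

namespace Pool.Agent.LibFB69

open Subgroup commutatorElement

universe u

theorem lin_bound (e : ℕ) (he : 0 < e) : ∃ k : ℕ, ∀ (M : Type u) [AddCommGroup M] (T : M →+ M),
    (∀ v : M, e • v = 0) → (∀ v, T^[e] v = v) → ∀ v, (∃ c : ℕ, (fun t => T t - t)^[c] v = 0) →
    (fun t => T t - t)^[k] v = 0 := by
  obtain ⟨i, j, hij, g, hg⟩ := pigeon e he
  refine ⟨i, fun M _ T0 hM hT0 v hv => ?_⟩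
  have : NeZero e := ⟨he.ne'⟩
  have hmod : Module (ZMod e) M := AddCommGroup.zmodModule hM
  obtain ⟨T, hT⟩ : ∃ T : Module.End (ZMod e) M, ∀ v : M, (T : M →ₗ[ZMod e] M) v = T0 v :=
    ⟨AddMonoidHom.toZModLinearMap e T0, fun v => rfl⟩
  have h1 : ∀ n : ℕ, ∀ v : M, (T ^ n) v = T0^[n] v := by
    intro n
    induction n with
    | zero => intro v; simp
    | succ n ih =>
      intro v
      rw [pow_succ', Module.End.mul_apply, hT, ih, Function.iterate_succ_apply']
  have h2 : T ^ e = 1 := by
    ext v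
    rw [h1, hT0, Module.End.one_apply]
  have h3 : ∀ n : ℕ, ∀ v : M, ((T - 1) ^ n) v = (fun t => T0 t - t)^[n] v := by
    intro n v
    induction n with
    | zero => simp
    | succ n ih =>
      rw [pow_succ', Module.End.mul_apply, Function.iterate_succ_apply', ← ih, LinearMap.sub_apply,
        hT, Module.End.one_apply]
  have h4 : (T - 1) ^ i = (T - 1) ^ j := by
    have h5 := congrArg (Polynomial.aeval T) hg
    simp only [map_sub, map_pow, map_mul, map_one, Polynomial.aeval_X] at h5
    rw [h2, sub_self, zero_mul, sub_eq_zero] at h5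
    exact h5
  have h5 : ∀ r : ℕ, (T - 1) ^ i = (T - 1) ^ (i + (j - i) * r) := by
    intro r
    induction r with
    | zero => simp
    | succ r ih =>
      have h6 : i + (j - i) * (r + 1) = j + (j - i) * r := by
        rw [mul_add, mul_one]; omega
      rw [h6, pow_add, ← h4, ← pow_add, ← ih]
  obtain ⟨c, hc⟩ := hv
  rw [← h3] at hc
  rw [← h3]
  have h8 : c ≤ (j - i) * c := Nat.le_mul_of_pos_left c (by omega)
  have h9 : i + (j - i) * c = (i + ((j - i) * c - c)) + c := by omega
  rw [h5 c, h9, pow_add, Module.End.mul_apply, hc, map_zero]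

theorem ab_bound (e : ℕ) (he : 0 < e) : ∃ k : ℕ, ∀ (G : Type u) [Group G], LocNilp G →
    ∀ A : Subgroup G, A.Normal → (∀ a ∈ A, ∀ b ∈ A, Commute a b) → (∀ a ∈ A, a ^ e = 1) →
    ∀ y : G, (∀ a ∈ A, Commute (y ^ e) a) → ∀ a ∈ A, eng y k a = 1 := by
  obtain ⟨k, hk⟩ := lin_bound.{u} e he
  refine ⟨k, fun G _ hG A hA hcomm hexp y hy a ha => ?_⟩
  let _ : CommGroup A :=
    { (inferInstance : Group A) with mul_comm := fun a b => Subtype.ext (hcomm a a.2 b b.2) }
  obtain ⟨T, hT⟩ : ∃ T : Additive A →+ Additive A,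
      ∀ v : Additive A, ((Additive.toMul (T v) : A) : G) = y * (Additive.toMul v : A) * y⁻¹ :=
    ⟨MonoidHom.toAdditive ((MulAut.conjNormal y : MulAut A).toMonoidHom), fun v => rfl⟩
  have h3 : ∀ n : ℕ, ∀ v : Additive A,
      ((Additive.toMul ((fun t => T t - t)^[n] v) : A) : G) = eng y n (Additive.toMul v : A) := by
    intro n v
    induction n with
    | zero => simp [eng_zero]
    | succ n ih =>
      rw [Function.iterate_succ_apply', eng_succ, ← ih, toMul_sub, Subgroup.coe_div, hT,
        commutatorElement_def, div_eq_mul_inv]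
  have h1 : ∀ n : ℕ, ∀ v : Additive A,
      ((Additive.toMul (T^[n] v) : A) : G) = y ^ n * (Additive.toMul v : A) * (y ^ n)⁻¹ := by
    intro n
    induction n with
    | zero => intro v; simp
    | succ n ih =>
      intro v
      rw [Function.iterate_succ_apply', hT, ih, pow_succ']
      group
  have h4 := hk (Additive A) T (fun v => by
    apply Additive.toMul.injective
    apply Subtype.ext
    rw [toMul_nsmul, toMul_zero, Subgroup.coe_pow, hexp _ (Additive.toMul v).2]
    rfl) (fun v => by
    apply Additive.toMul.injective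
    apply Subtype.ext
    rw [h1, (hy _ (Additive.toMul v).2).eq, mul_inv_cancel_right]) (Additive.ofMul ⟨a, ha⟩) (by
    obtain ⟨c, hc⟩ := hG.eng a y
    refine ⟨c, ?_⟩
    apply Additive.toMul.injective
    apply Subtype.ext
    rw [h3]
    exact hc)
  have h8 := h3 k (Additive.ofMul ⟨a, ha⟩)
  rw [h4] at h8
  exact h8.symm

end Pool.Agent.LibFB69
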