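import Pool.Agent.LibFB69.Ab

set_option autoImplicit false

/-!
# The Engel bound for the locally nilpotent groups of a strong generalised Burnside variety
-/

namespace Pool.Agent.LibFB69

open Subgroup commutatorElement

universe u

theorem LocNilp.of_surjective {G H : Type u} [Group G] [Group H] (φ : G →* H)
    (hφ : Function.Surjective φ) (h : LocNilp G) : LocNilp H := by
  classical
  rintro K ⟨S, hS⟩
  choose g hg using hφ
  have h1 : Group.IsNilpotent (Subgroup.closure (g '' (S : Set H))) :=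
    h.closure (S.finite_toSet.image g)
  have h2 : (Subgroup.closure (g '' (S : Set H))).map φ = K := by
    rw [MonoidHom.map_closure, ← hS, Set.image_image]
    simp [hg]
  have h3 : Group.IsNilpotent ((Subgroup.closure (g '' (S : Set H))).map φ) :=
    Group.nilpotent_of_surjective (φ.subgroupMap _) (φ.subgroupMap_surjective _)
  rw [h2] at h3
  exact h3

theorem FinBased.sub {V : (G : Type u) → [Group G] → Prop} (hV : FinBased V) {G : Type u} [Group G]
    (h : V G) (H : Subgroup G) : V H := by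
  obtain ⟨W, hW⟩ := hV
  exact (hW _).mpr fun w hw => Sat.of_injective H.subtype H.subtype_injective ((hW G).mp h w hw)

theorem FinBased.quot {V : (G : Type u) → [Group G] → Prop} (hV : FinBased V) {G : Type u} [Group G]
    (h : V G) (N : Subgroup G) [N.Normal] : V (G ⧸ N) := by
  obtain ⟨W, hW⟩ := hV
  exact (hW _).mpr fun w hw =>
    Sat.of_surjective (QuotientGroup.mk' N) (QuotientGroup.mk'_surjective N) ((hW G).mp h w hw)

theorem lcs_normal {G : Type u} [Group G] (N : Subgroup G) (hN : N.Normal) (i : ℕ) :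
    (N.lowerCentralSeries i).Normal := by
  induction i with
  | zero => exact hN
  | succ i ih => rw [Subgroup.lowerCentralSeries_succ]; infer_instance

theorem section_bound {G : Type u} [Group G] (hG : LocNilp G) {e k : ℕ}
    (hk : ∀ (G : Type u) [Group G], LocNilp G →
      ∀ A : Subgroup G, A.Normal → (∀ a ∈ A, ∀ b ∈ A, Commute a b) → (∀ a ∈ A, a ^ e = 1) →
      ∀ y : G, (∀ a ∈ A, Commute (y ^ e) a) → ∀ a ∈ A, eng y k a = 1)
    (A B : Subgroup G) (hA : A.Normal) (hB : B.Normal) (hAB : ∀ a ∈ A, ∀ b ∈ A, ⁅a, b⁆ ∈ B)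
    (hAe : ∀ a ∈ A, a ^ e = 1) (y : G) (hy : ∀ a ∈ A, ⁅a, y ^ e⁆ ∈ B) {a : G} (ha : a ∈ A) :
    eng y k a ∈ B := by
  have hsurj := QuotientGroup.mk'_surjective B
  have h1 := hk (G ⧸ B) (hG.of_surjective (QuotientGroup.mk' B) hsurj) (A.map (QuotientGroup.mk' B))
    (hA.map _ hsurj) (by
      rintro _ ⟨a, ha, rfl⟩ _ ⟨b, hb, rfl⟩
      rw [← commutatorElement_eq_one_iff_commute, ← map_commutatorElement]
      exact (QuotientGroup.eq_one_iff _).mpr (hAB a ha b hb)) (by
      rintro _ ⟨a, ha, rfl⟩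
      rw [← map_pow, hAe a ha, map_one]) (QuotientGroup.mk' B y) (by
      rintro _ ⟨a, ha, rfl⟩
      refine Commute.symm ?_
      rw [← map_pow, ← commutatorElement_eq_one_iff_commute, ← map_commutatorElement]
      exact (QuotientGroup.eq_one_iff _).mpr (hy a ha)) (QuotientGroup.mk' B a) ⟨a, ha, rfl⟩
  rw [← map_eng] at h1
  exact (QuotientGroup.eq_one_iff _).mp h1

theorem bar_engel {V : (G : Type u) → [Group G] → Prop} (hV : FinBased V) {c e : ℕ} (he : 0 < e)
    (hGB : GB V c e) (hP : FinBased (Part V e)) :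
    ∃ k : ℕ, ∀ (G : Type u) [Group G], V G → LocNilp G → ∀ x y : G, eng y k x = 1 := by
  obtain ⟨s, hs⟩ := engel_bound hP (fun G _ h => h.2.1)
  obtain ⟨k, hk⟩ := ab_bound.{u} e he
  refine ⟨k * c + (c + s), fun G _ hVG hLN x y => ?_⟩
  obtain ⟨⟨N, hN, hNc, hNl, hNe⟩, ⟨M, hM, ⟨_, hMe⟩, hMc⟩⟩ := hGB G hVG hLN
  have h1 : eng y s x ∈ N := by
    have h2 := hs (G ⧸ N) ⟨hV.quot hVG N, hNl, hNe⟩ (QuotientGroup.mk' N x) (QuotientGroup.mk' N y)
    rw [← map_eng] at h2
    exact (QuotientGroup.eq_one_iff _).mp h2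
  have h2 : eng y c (eng y s x) ∈ M := by
    have h3 := eng_mem_lcs (QuotientGroup.mk' M y) c (QuotientGroup.mk' M (eng y s x))
    rw [hMc, mem_bot, ← map_eng] at h3
    exact (QuotientGroup.eq_one_iff _).mp h3
  have hyN : y ^ e ∈ N := by
    have h3 := hNe (QuotientGroup.mk' N y)
    rw [← map_pow] at h3
    exact (QuotientGroup.eq_one_iff _).mp h3
  have hn : ∀ i : ℕ, (M ⊓ N.lowerCentralSeries i).Normal := fun i => by
    have := lcs_normal N hN i
    infer_instance
  have h4 : ∀ i : ℕ, ∀ a ∈ M ⊓ N.lowerCentralSeries i, eng y k a ∈ M ⊓ N.lowerCentralSeries (i + 1) := by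
    intro i a ha
    have h5 : ∀ a ∈ M ⊓ N.lowerCentralSeries i, ∀ b ∈ N, ⁅a, b⁆ ∈ M ⊓ N.lowerCentralSeries (i + 1) := by
      intro a ha b hb
      refine ⟨?_, commutator_mem_commutator ha.2 hb⟩
      have h6 : ⁅a, b⁆ = a * (b * a⁻¹ * b⁻¹) := by rw [commutatorElement_def]; group
      rw [h6]
      exact mul_mem ha.1 (hM.conj_mem _ (inv_mem ha.1) b)
    refine section_bound hLN hk _ _ (hn i) (hn (i + 1)) ?_ ?_ y ?_ ha
    · intro a ha b hb
      exact h5 a ha b (Subgroup.lowerCentralSeries_le_self N i hb.2)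
    · intro a ha
      exact congrArg Subtype.val (hMe ⟨a, ha.1⟩)
    · intro a ha
      exact h5 a ha _ hyN
  have h5 : ∀ i : ℕ, eng y (k * i) (eng y (c + s) x) ∈ M ⊓ N.lowerCentralSeries i := by
    intro i
    induction i with
    | zero =>
      refine ⟨?_, ?_⟩
      · rw [mul_zero, eng_zero, eng_add]; exact h2
      · rw [mul_zero, eng_zero, eng_add]; exact eng_mem N hN y c h1
    | succ i ih =>
      rw [mul_add, mul_one, add_comm (k * i) k, eng_add]
      exact h4 i _ ih
  have h6 := h5 c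
  rw [hNc, inf_bot_eq, mem_bot] at h6
  rw [eng_add]
  exact h6

end Pool.Agent.LibFB69
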