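import Pool.Agent.LibFB69.Defs

set_option autoImplicit false

/-!
# Varieties of groups: laws, local nilpotency, finitely based classes (helper file for MP_51ab1e_al)
-/

namespace Pool.Agent.LibFB69

open Subgroup commutatorElement

universe u

theorem map_lift {G H : Type u} [Group G] [Group H] (φ : G →* H) (f : ℕ → G) (w : FreeGroup ℕ) :
    φ (FreeGroup.lift f w) = FreeGroup.lift (fun i => φ (f i)) w := by
  have h : φ.comp (FreeGroup.lift f) = FreeGroup.lift (fun i => φ (f i)) := by
    ext i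
    simp
  rw [← h]; rfl

theorem Sat.of_injective {G H : Type u} [Group G] [Group H] (φ : H →* G) (hφ : Function.Injective φ)
    {w : FreeGroup ℕ} (h : Sat G w) : Sat H w := by
  intro f
  apply hφ
  rw [map_lift, h, map_one]

theorem Sat.of_surjective {G H : Type u} [Group G] [Group H] (φ : G →* H) (hφ : Function.Surjective φ)
    {w : FreeGroup ℕ} (h : Sat G w) : Sat H w := by
  intro f
  choose g hg using fun i => hφ (f i)
  have : f = fun i => φ (g i) := funext fun i => (hg i).symm
  rw [this, ← map_lift, h, map_one]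

theorem LocNilp.subgroup {G : Type u} [Group G] (h : LocNilp G) (H : Subgroup G) : LocNilp H := by
  intro K hK
  have h1 : (K.map H.subtype).FG := by
    obtain ⟨S, hS⟩ := hK
    classical
    refine ⟨S.image H.subtype, ?_⟩
    rw [← hS, Finset.coe_image, MonoidHom.map_closure]
  have h2 := h _ h1
  exact Group.nilpotent_of_mulEquiv (K.equivMapOfInjective H.subtype H.subtype_injective).symm

/-- In a group generated by elements with `s ^ q = 1`, commutators of `A` which are central have order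
dividing `q`. -/
theorem step {K : Type u} [Group K] (S : Set K) (hS : closure S = ⊤) (q : ℕ) (hq : ∀ s ∈ S, s ^ q = 1)
    (A : Subgroup K) (hA : ∀ a ∈ A, ∀ h : K, ⁅a, h⁆ ∈ center K) :
    ∀ x ∈ ⁅A, (⊤ : Subgroup K)⁆, x ^ q = 1 := by
  have key : ∀ a ∈ A, ∀ x y : K, ⁅a, x * y⁆ = ⁅a, x⁆ * ⁅a, y⁆ := by
    intro a ha x y
    have h1 : ⁅a, x * y⁆ = ⁅a, x⁆ * (x * ⁅a, y⁆ * x⁻¹) := by
      simp only [commutatorElement_def]; group
    have h2 := (mem_center_iff.mp (hA a ha y)) x
    rw [h1, h2]; group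
  have hpow : ∀ a ∈ A, ∀ x : K, ∀ k : ℕ, ⁅a, x ^ k⁆ = ⁅a, x⁆ ^ k := by
    intro a ha x k
    induction k with
    | zero => simp
    | succ k ih => rw [pow_succ, key a ha, ih, pow_succ]
  have hgen : ∀ a ∈ A, ∀ x : K, ⁅a, x⁆ ^ q = 1 := by
    intro a ha x
    have hx : x ∈ closure S := by rw [hS]; trivial
    induction hx using closure_induction with
    | mem s hs => rw [← hpow a ha, hq s hs]; simp
    | one => simp
    | mul x y _ _ hx hy =>
      have hc : Commute ⁅a, x⁆ ⁅a, y⁆ := (mem_center_iff.mp (hA a ha y)) _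
      rw [key a ha, hc.mul_pow, hx, hy, one_mul]
    | inv x _ hx =>
      have h1 : ⁅a, x⁆ * ⁅a, x⁻¹⁆ = 1 := by
        rw [← key a ha, mul_inv_cancel]; simp
      have h2 : ⁅a, x⁻¹⁆ = ⁅a, x⁆⁻¹ := (eq_inv_of_mul_eq_one_right h1)
      rw [h2, inv_pow, hx, inv_one]
  intro x hx
  have h0 : x ∈ center K ∧ x ^ q = 1 := by
    rw [Subgroup.commutator_def] at hx
    induction hx using closure_induction with
    | mem s hs =>
      obtain ⟨a, ha, b, _, rfl⟩ := hs
      exact ⟨hA a ha b, hgen a ha b⟩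
    | one => exact ⟨one_mem _, one_pow _⟩
    | mul x y _ _ hx hy =>
      have hc : Commute x y := (mem_center_iff.mp hy.1) _
      exact ⟨mul_mem hx.1 hy.1, by rw [hc.mul_pow, hx.2, hy.2, one_mul]⟩
    | inv x _ hx => exact ⟨inv_mem hx.1, by rw [inv_pow, hx.2, inv_one]⟩
  exact h0.2

theorem pow_mem_succ {H : Type u} [Group H] (S : Set H) (hS : closure S = ⊤) (q : ℕ)
    (hq : ∀ s ∈ S, s ^ q = 1) (i : ℕ) :
    ∀ x ∈ (⊤ : Subgroup H).lowerCentralSeries i, x ^ q ∈ (⊤ : Subgroup H).lowerCentralSeries (i + 1) := by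
  cases i with
  | zero =>
    intro x _
    have h1 : ∀ x : H, (Abelianization.of x) ^ q = 1 := by
      intro x
      have hx : x ∈ closure S := by rw [hS]; trivial
      induction hx using closure_induction with
      | mem s hs => rw [← map_pow, hq s hs, map_one]
      | one => simp
      | mul x y _ _ hx hy => rw [map_mul, mul_pow, hx, hy, one_mul]
      | inv x _ hx => rw [map_inv, inv_pow, hx, inv_one]
    have h2 := h1 x
    rw [← map_pow, ← MonoidHom.mem_ker, Abelianization.ker_of] at h2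
    exact h2
  | succ i =>
    intro x hx
    obtain ⟨L, hL⟩ : ∃ L, L = (⊤ : Subgroup H).lowerCentralSeries (i + 2) := ⟨_, rfl⟩
    have hLn : L.Normal := by rw [hL]; infer_instance
    obtain ⟨π, hπ⟩ : ∃ π : H →* H ⧸ L, π = QuotientGroup.mk' L := ⟨_, rfl⟩
    have hsurj : Function.Surjective π := by rw [hπ]; exact QuotientGroup.mk'_surjective L
    have hker : ∀ y, π y = 1 ↔ y ∈ L := by
      intro y; rw [hπ]; exact QuotientGroup.eq_one_iff y
    have h1 : closure (π '' S) = ⊤ := by
      rw [← MonoidHom.map_closure, hS, Subgroup.map_top_of_surjective π hsurj]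
    have h2 : ∀ s ∈ π '' S, s ^ q = 1 := by
      rintro _ ⟨s, hs, rfl⟩
      rw [← map_pow, hq s hs, map_one]
    have h3 := step (π '' S) h1 q h2 (((⊤ : Subgroup H).lowerCentralSeries i).map π) (by
      rintro _ ⟨g, hg, rfl⟩ h
      obtain ⟨h, rfl⟩ := hsurj h
      rw [mem_center_iff]
      intro k
      obtain ⟨k, rfl⟩ := hsurj k
      have h4 : ⁅⁅g, h⁆, k⁆ ∈ L := by
        rw [hL]
        exact commutator_mem_commutator (commutator_mem_commutator hg (mem_top h)) (mem_top k)
      have h5 := (hker _).mpr h4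
      rw [← map_commutatorElement] 
      rw [map_commutatorElement, commutatorElement_eq_one_iff_mul_comm] at h5
      exact h5.symm) (π x) (by
      have h6 : π x ∈ ((⊤ : Subgroup H).lowerCentralSeries (i + 1)).map π := ⟨x, hx, rfl⟩
      rw [Subgroup.lowerCentralSeries_succ, map_commutator, Subgroup.map_top_of_surjective π hsurj] at h6
      exact h6)
    rw [← map_pow, hker, hL] at h3
    exact h3

theorem exp_closure {G : Type u} [Group G] (S : Set G) (hn : Group.IsNilpotent (closure S)) (q : ℕ)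
    (hq : ∀ s ∈ S, s ^ q = 1) : ∃ N : ℕ, ∀ x ∈ closure S, x ^ q ^ N = 1 := by
  obtain ⟨S', hS'⟩ : ∃ S' : Set (closure S), S' = ((↑) : closure S → G) ⁻¹' S := ⟨_, rfl⟩
  have h1 : closure S' = ⊤ := by rw [hS']; exact closure_closure_coe_preimage
  have h2 : ∀ s ∈ S', s ^ q = 1 := by
    intro s hs
    rw [hS'] at hs
    exact Subtype.ext (by push_cast; exact hq _ hs)
  obtain ⟨c, hc⟩ := Subgroup.nilpotent_iff_lowerCentralSeries.mp hn
  refine ⟨c, fun x hx => ?_⟩
  have h3 : ∀ j : ℕ, (⟨x, hx⟩ : closure S) ^ q ^ j ∈ (⊤ : Subgroup (closure S)).lowerCentralSeries j := by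
    intro j
    induction j with
    | zero => exact mem_top _
    | succ j ih =>
      rw [pow_succ, pow_mul]
      exact pow_mem_succ S' h1 q h2 j _ ih
  have h4 := h3 c
  rw [hc, mem_bot] at h4
  exact congrArg Subtype.val h4

theorem eq_one_of_coprime {G : Type u} [Group G] {x : G} {a b : ℕ} (h : a.Coprime b) (ha : x ^ a = 1)
    (hb : x ^ b = 1) : x = 1 := by
  have h1 : orderOf x ∣ Nat.gcd a b := Nat.dvd_gcd (orderOf_dvd_of_pow_eq_one ha) (orderOf_dvd_of_pow_eq_one hb)
  rw [h] at h1
  exact orderOf_eq_one_iff.mp (Nat.dvd_one.mp h1)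

theorem LocNilp.closure {G : Type u} [Group G] (h : LocNilp G) {S : Set G} (hS : S.Finite) :
    Group.IsNilpotent (Subgroup.closure S) :=
  h _ ⟨hS.toFinset, by rw [Set.Finite.coe_toFinset]⟩

theorem commute_coprime {G : Type u} [Group G] (hG : LocNilp G) {a b : G} {q m : ℕ} (h : q.Coprime m)
    (ha : a ^ q = 1) (hb : b ^ m = 1) : Commute a b := by
  obtain ⟨N, hN⟩ := exp_closure {a, b * a⁻¹ * b⁻¹} (hG.closure (Set.toFinite _)) q (by
    rintro s (rfl | rfl)
    · exact ha
    · rw [conj_pow, inv_pow, ha]; simp)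
  obtain ⟨M, hM⟩ := exp_closure {a * b * a⁻¹, b⁻¹} (hG.closure (Set.toFinite _)) m (by
    rintro s (rfl | rfl)
    · rw [conj_pow, hb]; simp
    · rw [inv_pow, hb, inv_one])
  have h1 : (⁅a, b⁆) ^ q ^ N = 1 := by
    apply hN
    have : ⁅a, b⁆ = a * (b * a⁻¹ * b⁻¹) := by rw [commutatorElement_def]; group
    rw [this]
    exact mul_mem (subset_closure (by simp)) (subset_closure (by simp))
  have h2 : (⁅a, b⁆) ^ m ^ M = 1 := by
    apply hM
    have : ⁅a, b⁆ = (a * b * a⁻¹) * b⁻¹ := by rw [commutatorElement_def]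
    rw [this]
    exact mul_mem (subset_closure (by simp)) (subset_closure (by simp))
  have h3 := eq_one_of_coprime (Nat.Coprime.pow N M h) h1 h2
  exact commutatorElement_eq_one_iff_commute.mp h3

/-- The elements of order dividing `a` of a locally nilpotent group of exponent `a * b`. -/
theorem mul_pow_eq_one {G : Type u} [Group G] (hG : LocNilp G) {a b : ℕ} (hab : a.Coprime b)
    (hn : ∀ x : G, x ^ (a * b) = 1) {x y : G} (hx : x ^ a = 1) (hy : y ^ a = 1) : (x * y) ^ a = 1 := by
  obtain ⟨N, hN⟩ := exp_closure {x, y} (hG.closure (Set.toFinite _)) a (by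
    rintro s (rfl | rfl)
    · exact hx
    · exact hy)
  have h1 : ((x * y) ^ a) ^ a ^ N = 1 := by
    rw [← pow_mul, mul_comm, pow_mul, hN _ (mul_mem (subset_closure (by simp)) (subset_closure (by simp))),
      one_pow]
  have h2 : ((x * y) ^ a) ^ b = 1 := by rw [← pow_mul, hn]
  exact eq_one_of_coprime (Nat.Coprime.pow_left N hab) h1 h2

end Pool.Agent.LibFB69
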