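import Pool.Agent.LibFB69.Hyp

set_option autoImplicit false

/-!
# A maximal set of laws without a finite certificate (helper file for MP_51ab1e_al)
-/

namespace Pool.Agent.LibFB69

open Subgroup commutatorElement

universe u v

theorem map_lift2 {G : Type u} {H : Type v} [Group G] [Group H] (φ : G →* H) (f : ℕ → G)
    (w : FreeGroup ℕ) : φ (FreeGroup.lift f w) = FreeGroup.lift (fun i => φ (f i)) w := by
  have h : φ.comp (FreeGroup.lift f) = FreeGroup.lift (fun i => φ (f i)) := by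
    ext i
    simp
  rw [← h]; rfl

theorem lift_of (w : FreeGroup ℕ) : FreeGroup.lift (fun i : ℕ => FreeGroup.of i) w = w := by
  have h : (FreeGroup.lift (fun i : ℕ => FreeGroup.of i)) = MonoidHom.id (FreeGroup ℕ) := by
    ext i
    simp
  rw [h]; rfl

/-- The consequences of the laws in `T`. -/
def Cons (T : Set (FreeGroup ℕ)) : Subgroup (FreeGroup ℕ) := closure (Val T (FreeGroup ℕ))

instance cons_normal (T : Set (FreeGroup ℕ)) : (Cons T).Normal := val_normal T (FreeGroup ℕ)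

theorem subset_cons (T : Set (FreeGroup ℕ)) : ∀ w ∈ T, w ∈ Cons T := fun w hw =>
  subset_closure ⟨w, hw, fun i => FreeGroup.of i, (lift_of w).symm⟩

theorem cons_mono {T T' : Set (FreeGroup ℕ)} (h : T ⊆ T') : Cons T ≤ Cons T' := by
  refine closure_mono ?_
  rintro _ ⟨w, hw, f, rfl⟩
  exact ⟨w, h hw, f, rfl⟩

theorem sat_cons (G : Type u) [Group G] (T : Set (FreeGroup ℕ)) (h : ∀ w ∈ T, Sat G w) :
    ∀ w ∈ Cons T, Sat G w := by
  intro w hw
  induction hw using closure_induction with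
  | mem w hw =>
    obtain ⟨t, ht, g, rfl⟩ := hw
    intro f
    rw [lift_lift]
    exact h t ht _
  | one => intro f; exact map_one _
  | mul x y _ _ hx hy => intro f; rw [map_mul, hx, hy, one_mul]
  | inv x _ hx => intro f; rw [map_inv, hx, inv_one]

/-- The relatively free group of countable rank, in the universe `u`. -/
abbrev RF (T : Set (FreeGroup ℕ)) : Type u := ULift.{u} (FreeGroup ℕ ⧸ Cons T)

/-- The projection to the relatively free group. -/
def pr (T : Set (FreeGroup ℕ)) : FreeGroup ℕ →* RF.{u} T :=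
  (MulEquiv.ulift.symm : (FreeGroup ℕ ⧸ Cons T) ≃* RF.{u} T).toMonoidHom.comp
    (QuotientGroup.mk' (Cons T))

theorem pr_surj (T : Set (FreeGroup ℕ)) : Function.Surjective (pr.{u} T) := by
  rintro ⟨x⟩
  obtain ⟨w, rfl⟩ := QuotientGroup.mk'_surjective (Cons T) x
  exact ⟨w, rfl⟩

theorem pr_eq_one (T : Set (FreeGroup ℕ)) (w : FreeGroup ℕ) : pr.{u} T w = 1 ↔ w ∈ Cons T := by
  rw [← QuotientGroup.eq_one_iff]
  constructor
  · intro h
    exact congrArg ULift.down h
  · intro h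
    exact congrArg ULift.up h

theorem sat_rf (T : Set (FreeGroup ℕ)) : ∀ w ∈ T, Sat (RF.{u} T) w := by
  intro w hw f
  have h1 := sat_quot T (FreeGroup ℕ) (Cons T) rfl w hw
  apply (MulEquiv.ulift : RF.{u} T ≃* (FreeGroup ℕ ⧸ Cons T)).injective
  have h2 := map_lift2 (MulEquiv.ulift : RF.{u} T ≃* (FreeGroup ℕ ⧸ Cons T)).toMonoidHom f w
  rw [h1] at h2
  rw [map_one]
  exact h2

theorem cons_of_sat (T : Set (FreeGroup ℕ)) (w : FreeGroup ℕ) (h : Sat (RF.{u} T) w) : w ∈ Cons T := by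
  have h1 := h (fun i => pr.{u} T (FreeGroup.of i))
  rw [← map_lift2, lift_of, pr_eq_one] at h1
  exact h1

theorem support (w : FreeGroup ℕ) : ∃ N : ℕ, ∀ (G : Type u) [Group G] (f g : ℕ → G),
    (∀ i < N, f i = g i) → FreeGroup.lift f w = FreeGroup.lift g w := by
  induction w using FreeGroup.induction_on with
  | C1 => exact ⟨0, fun G _ f g _ => by rw [map_one, map_one]⟩
  | of i => exact ⟨i + 1, fun G _ f g h => by
      rw [FreeGroup.lift_apply_of, FreeGroup.lift_apply_of]; exact h i (Nat.lt_succ_self i)⟩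
  | inv_of i _ => exact ⟨i + 1, fun G _ f g h => by
      rw [map_inv, map_inv, FreeGroup.lift_apply_of, FreeGroup.lift_apply_of, h i (Nat.lt_succ_self i)]⟩
  | mul x y hx hy =>
    obtain ⟨N, hN⟩ := hx
    obtain ⟨M, hM⟩ := hy
    refine ⟨max N M, fun G _ f g h => ?_⟩
    rw [map_mul, map_mul, hN G f g (fun i hi => h i (lt_max_of_lt_left hi)),
      hM G f g (fun i hi => h i (lt_max_of_lt_right hi))]

/-- Finitely many consequences of `T` force local nilpotency. -/
def Cert (T : Set (FreeGroup ℕ)) : Prop :=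
  ∃ L : Finset (FreeGroup ℕ), (∀ w ∈ L, w ∈ Cons T) ∧
    ∀ (G : Type u) [Group G], (∀ w ∈ L, Sat G w) → LocNilp G

theorem cons_union (C : Set (Set (FreeGroup ℕ))) (hC : IsChain (· ⊆ ·) C) (hne : C.Nonempty) :
    ∀ w ∈ Cons (⋃₀ C), ∃ T ∈ C, w ∈ Cons T := by
  intro w hw
  induction hw using closure_induction with
  | mem w hw =>
    obtain ⟨t, ⟨T, hT, htT⟩, f, rfl⟩ := hw
    exact ⟨T, hT, subset_closure ⟨t, htT, f, rfl⟩⟩
  | one =>
    obtain ⟨T, hT⟩ := hne
    exact ⟨T, hT, one_mem _⟩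
  | mul x y _ _ hx hy =>
    obtain ⟨T, hT, hxT⟩ := hx
    obtain ⟨T', hT', hyT⟩ := hy
    rcases hC.total hT hT' with h | h
    · exact ⟨T', hT', mul_mem (cons_mono h hxT) hyT⟩
    · exact ⟨T, hT, mul_mem hxT (cons_mono h hyT)⟩
  | inv x _ hx =>
    obtain ⟨T, hT, hxT⟩ := hx
    exact ⟨T, hT, inv_mem hxT⟩

theorem cons_union_finset (C : Set (Set (FreeGroup ℕ))) (hC : IsChain (· ⊆ ·) C) (hne : C.Nonempty)
    (L : Finset (FreeGroup ℕ)) (hL : ∀ w ∈ L, w ∈ Cons (⋃₀ C)) : ∃ T ∈ C, ∀ w ∈ L, w ∈ Cons T := by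
  classical
  induction L using Finset.induction_on with
  | empty =>
    obtain ⟨T, hT⟩ := hne
    exact ⟨T, hT, by simp⟩
  | insert a L _ ih =>
    obtain ⟨T, hT, h1⟩ := ih (fun w hw => hL w (Finset.mem_insert_of_mem hw))
    obtain ⟨T', hT', h2⟩ := cons_union C hC hne a (hL a (Finset.mem_insert_self a L))
    rcases hC.total hT hT' with h | h
    · refine ⟨T', hT', ?_⟩
      rw [Finset.forall_mem_insert]
      exact ⟨h2, fun w hw => cons_mono h (h1 w hw)⟩
    · refine ⟨T, hT, ?_⟩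
      rw [Finset.forall_mem_insert]
      exact ⟨cons_mono h h2, h1⟩

theorem cons_insert (T : Set (FreeGroup ℕ)) (f w : FreeGroup ℕ) (hw : w ∈ Cons (insert f T)) :
    ∃ s ∈ Cons T, ∃ v ∈ Cons {f}, s * v = w := by
  have h1 : Cons (insert f T) ≤ Cons T ⊔ Cons {f} := by
    rw [Cons, closure_le]
    rintro _ ⟨t, ht, g, rfl⟩
    rcases ht with rfl | ht
    · exact mem_sup_right (subset_closure ⟨t, rfl, g, rfl⟩)
    · exact mem_sup_left (subset_closure ⟨t, ht, g, rfl⟩)
  exact Subgroup.mem_sup_of_normal_left.mp (h1 hw)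

theorem crit {p k : ℕ} (hp : p.Prime) (S0 : Set (FreeGroup ℕ))
    (hq : (FreeGroup.of 0) ^ (p ^ k) ∈ S0) {X : (G : Type u) → [Group G] → Prop}
    (hX : FinBased X) (hXl : ∀ (G : Type u) [Group G], X G → LocNilp G)
    (hab : ∀ (G : Type u) [Group G], (∀ w ∈ S0, Sat G w) → ¬ X G →
      ∃ A : Subgroup G, A.Normal ∧ A ≠ ⊥ ∧ ∀ a ∈ A, ∀ b ∈ A, Commute a b) : Cert.{u} S0 := by
  classical
  by_contra hP
  obtain ⟨T, hT0, hTmax⟩ := zorn_subset_nonempty {T : Set (FreeGroup ℕ) | S0 ⊆ T ∧ ¬ Cert.{u} T}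
    (by
      intro C hC hchain hne
      refine ⟨⋃₀ C, ⟨?_, ?_⟩, fun s hs => Set.subset_sUnion_of_mem hs⟩
      · obtain ⟨T, hT⟩ := hne
        exact (hC hT).1.trans (Set.subset_sUnion_of_mem hT)
      · rintro ⟨L, hL, hL2⟩
        obtain ⟨T, hT, h1⟩ := cons_union_finset C hchain hne L hL
        exact (hC hT).2 ⟨L, h1, hL2⟩) S0 ⟨subset_rfl, hP⟩
  have hTP : ¬ Cert.{u} T := hTmax.prop.2
  have hsatS : ∀ w ∈ S0, Sat (RF.{u} T) w := fun w hw => sat_rf T w (hT0 hw)
  by_cases hexp : X (RF.{u} T)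
  · obtain ⟨W, hW⟩ := hX
    have h1 := (hW (RF.{u} T)).mp hexp
    exact hTP ⟨W, fun w hw => cons_of_sat T w (h1 w hw), fun G _ hG => hXl G ((hW G).mpr hG)⟩
  · obtain ⟨A, hA, hA1, hA2⟩ := hab _ hsatS hexp
    obtain ⟨a, haA, ha1⟩ := (Subgroup.bot_or_exists_ne_one A).resolve_left hA1
    obtain ⟨f, rfl⟩ := pr_surj T a
    have hf : f ∉ Cons T := fun h => ha1 ((pr_eq_one T f).mpr h)
    obtain ⟨N, hN⟩ := support.{u} f
    obtain ⟨ℓ, hℓ⟩ : ∃ ℓ : FreeGroup ℕ, ℓ = ⁅f, FreeGroup.of N * f * (FreeGroup.of N)⁻¹⁆ := ⟨_, rfl⟩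
    have hℓT : ℓ ∈ Cons T := by
      rw [← pr_eq_one.{u}, hℓ, map_commutatorElement, commutatorElement_eq_one_iff_commute, map_mul,
        map_mul, map_inv]
      exact hA2 _ haA _ (hA.conj_mem _ haA _)
    have hins : Cert.{u} (insert f T) := by
      by_contra h
      have h1 := hTmax.le_of_ge (y := insert f T)
        ⟨hT0.trans (Set.subset_insert f T), h⟩ (Set.subset_insert f T)
      exact hf (subset_cons T f (h1 (Set.mem_insert f T)))
    obtain ⟨L, hL, hL2⟩ := hins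
    have hdec : ∀ w ∈ L, ∃ s ∈ Cons T, ∃ v ∈ Cons {f}, s * v = w := fun w hw =>
      cons_insert T f w (hL w hw)
    choose! s hs v hv hsv using hdec
    apply hTP
    refine ⟨insert ℓ (insert ((FreeGroup.of 0) ^ (p ^ k)) (L.image s)), ?_, ?_⟩
    · rw [Finset.forall_mem_insert, Finset.forall_mem_insert]
      refine ⟨hℓT, subset_cons T _ (hT0 hq), ?_⟩
      intro w hw
      obtain ⟨w', hw', rfl⟩ := Finset.mem_image.mp hw
      exact hs w' hw'
    · intro G _ hG
      rw [Finset.forall_mem_insert, Finset.forall_mem_insert, sat_pow] at hG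
      obtain ⟨hG1, hG2, hG3⟩ := hG
      refine step_fin hp hG2 f ?_ ?_
      · intro g h
        have h1 := hG1 (Function.update g N h)
        rw [hℓ, map_commutatorElement, commutatorElement_eq_one_iff_commute, map_mul,
          map_mul, map_inv, FreeGroup.lift_apply_of, Function.update_self,
          hN G (Function.update g N h) g (fun i hi => by rw [Function.update_of_ne (by omega)])] at h1
        exact h1
      · intro H R hRn hR
        refine hL2 _ ?_
        intro w hw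
        have h1 : Sat H (s w) := Sat.of_injective H.subtype H.subtype_injective
          (hG3 (s w) (Finset.mem_image_of_mem s hw))
        have h2 : Sat (H ⧸ R) (s w) :=
          Sat.of_surjective (QuotientGroup.mk' R) (QuotientGroup.mk'_surjective R) h1
        have h3 : Sat (H ⧸ R) (v w) := sat_cons _ {f} (sat_quot {f} H R hR) _ (hv w hw)
        intro g
        rw [← hsv w hw, map_mul, h2, h3, one_mul]

theorem small_burn {n : ℕ} (hn : n ∣ 4 ∨ n ∣ 3) : FinBased (Burn.{u} n) := by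
  refine ⟨{(FreeGroup.of 0) ^ n}, fun G _ => ?_⟩
  simp only [Finset.mem_singleton, forall_eq, sat_pow]
  refine ⟨fun h => h.2, fun hG => ⟨?_, hG⟩⟩
  rcases hn with ⟨m, hm⟩ | ⟨m, hm⟩
  · exact locNilp_four fun x => by rw [hm, pow_mul, hG, one_pow]
  · exact locNilp_three fun x => by rw [hm, pow_mul, hG, one_pow]

theorem small_pow {p k : ℕ} (hp1 : p.Prime) (h1 : p ^ k ≤ 4) : p ^ k ∣ 4 ∨ p ^ k ∣ 3 := by
  have hp2 : 2 ≤ p := hp1.two_le
  rcases k with _ | _ | k
  · simp
  · rw [zero_add, pow_one] at h1 ⊢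
    interval_cases p
    · left; norm_num
    · right; norm_num
    · left; norm_num
  · have h2 : p ^ 2 ≤ p ^ (k + 1 + 1) := Nat.pow_le_pow_right hp1.pos (by omega)
    have h3 : p = 2 := by nlinarith
    subst h3
    have h4 : k = 0 := by
      by_contra hk
      have h5 : 2 ^ 3 ≤ 2 ^ (k + 1 + 1) := Nat.pow_le_pow_right (by norm_num) (by omega)
      omega
    subst h4
    left; norm_num

theorem part_hyper {V X : (G : Type u) → [Group G] → Prop} (hV : FinBased V)
    (hvar : IsVariety (Bar V)) {p k : ℕ} (hp : p.Prime) (hX : FinBased X)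
    (hXl : ∀ (G : Type u) [Group G], X G → LocNilp G)
    (hab : ∀ (G : Type u) [Group G], Part V (p ^ k) G → ¬ X G →
      ∃ A : Subgroup G, A.Normal ∧ A ≠ ⊥ ∧ ∀ a ∈ A, ∀ b ∈ A, Commute a b) :
    FinBased (Part V (p ^ k)) := by
  classical
  obtain ⟨S, hS⟩ := hvar
  obtain ⟨U, hU⟩ := hV
  have hpart : ∀ (G : Type u) [Group G],
      (∀ w ∈ insert ((FreeGroup.of 0) ^ (p ^ k)) S, Sat G w) ↔ Part V (p ^ k) G := by
    intro G _
    rw [Set.forall_mem_insert, sat_pow, ← hS]
    exact ⟨fun h => ⟨h.2.1, h.2.2, h.1⟩, fun h => ⟨h.2.2, h.1, h.2.1⟩⟩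
  obtain ⟨L, hL, hL2⟩ := crit hp (insert ((FreeGroup.of 0) ^ (p ^ k)) S) (Set.mem_insert _ _)
    hX hXl (fun G _ h => hab G ((hpart G).mp h))
  refine ⟨L ∪ insert ((FreeGroup.of 0) ^ (p ^ k)) U, fun G _ => ?_⟩
  rw [Finset.forall_mem_union, Finset.forall_mem_insert, sat_pow, ← hU]
  constructor
  · intro h
    exact ⟨fun w hw => sat_cons G _ ((hpart G).mpr h) w (hL w hw), h.2.2, h.1⟩
  · rintro ⟨h1, h2, h3⟩
    exact ⟨h3, hL2 G h1, h2⟩

theorem inter_bar {V Y : (G : Type u) → [Group G] → Prop} (h : FinBased (Bar V)) (hY : FinBased Y) :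
    FinBased (Bar (Inter V Y)) := by
  obtain ⟨W, hW⟩ := inter_fb h hY
  refine ⟨W, fun G _ => ?_⟩
  rw [← hW]
  exact ⟨fun h => ⟨⟨h.1.1, h.2⟩, h.1.2⟩, fun h => ⟨⟨h.1.1, h.2⟩, h.1.2⟩⟩

theorem hyper_iff {V Y : (G : Type u) → [Group G] → Prop} (hV : FinBased V) (hS : StrongGB V)
    (hvar : IsVariety (Bar V)) (hY : FinBased Y) (h : HyperabOver V Y) :
    FinBased (Bar V) ↔ FinBased (Bar (Inter V Y)) := by
  refine ⟨fun hB => inter_bar hB hY, fun hB => ?_⟩
  obtain ⟨c, e0, _, he0, hGB⟩ := hS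
  refine (bar_iff hV he0 hGB).mpr fun p hp => ?_
  have hp1 := Nat.prime_of_mem_primeFactors hp
  refine part_hyper hV hvar hp1 hB (fun G _ h => h.2) ?_
  intro G _ hG hX
  obtain ⟨A, hA, hA1, hA2⟩ := h p _ hp1 G hG (fun hYG => hX ⟨⟨hG.1, hYG⟩, hG.2.1⟩)
  exact ⟨A, hA, hA1, hA2⟩

theorem both_iff {V Y : (G : Type u) → [Group G] → Prop} (hV : FinBased V) (hS : StrongGB V)
    (hY : FinBased Y)
    (h : (∃ d : ℕ, SolvByClass V Y d) ∨ (IsVariety (Bar V) ∧ HyperabOver V Y)) :
    FinBased (Bar V) ↔ FinBased (Bar (Inter V Y)) := by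
  rcases h with ⟨d, hd⟩ | ⟨h1, h2⟩
  · exact soluble_kernel hV hS hY hd
  · exact hyper_iff hV hS h1 hY h2

theorem inter_pos {V Y : (G : Type u) → [Group G] → Prop} (hV : FinBased V) (hS : StrongGB V)
    (hY : FinBased Y)
    (h : ∀ p k : ℕ, p.Prime → ∀ (G : Type u) [Group G], V G → Y G → (∀ x : G, x ^ p ^ k = 1) →
      (∃ x : G, x ^ 12 ≠ 1) → LocNilp G) : FinBased (Bar (Inter V Y)) := by
  obtain ⟨c, e, _, he, hGB⟩ := hS
  have hGB2 : GB (Inter V Y) c e := fun G _ h1 h2 => hGB G h1.1 h2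
  refine (bar_iff (inter_fb hV hY) he hGB2).mpr fun p hp => ?_
  have hp1 := Nat.prime_of_mem_primeFactors hp
  refine part_of_loc (inter_fb hV hY) ?_
  intro G _ hG hx
  by_cases h12 : ∀ x : G, x ^ 12 = 1
  · by_cases hp2 : p = 2
    · subst hp2
      refine locNilp_four fun x => ?_
      have h1 := pow_min hp1 (by norm_num : (12 : ℕ) ≠ 0) (hx x) (h12 x)
      have h2 : (12 : ℕ).factorization 2 ≤ 2 := factorization_le (by norm_num) hp1 (by norm_num)
      have h3 : 2 ^ min (e.factorization 2) ((12 : ℕ).factorization 2) ∣ 4 :=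
        (pow_dvd_pow 2 ((min_le_right _ _).trans h2)).trans (by norm_num)
      obtain ⟨m, hm⟩ := h3
      rw [hm, pow_mul, h1, one_pow]
    · refine locNilp_three fun x => ?_
      have h1 := pow_min hp1 (by norm_num : (12 : ℕ) ≠ 0) (hx x) (h12 x)
      have h3 : p ^ min (e.factorization p) ((12 : ℕ).factorization p) ∣ 3 := by
        by_cases hp3 : p = 3
        · subst hp3
          have h2 : (12 : ℕ).factorization 3 ≤ 1 := factorization_le (by norm_num) hp1 (by norm_num)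
          exact (pow_dvd_pow 3 ((min_le_right _ _).trans h2)).trans (by norm_num)
        · have h2 : (12 : ℕ).factorization p ≤ 0 := by
            refine factorization_le (by norm_num) hp1 ?_
            rw [zero_add, pow_one]
            intro hd
            have h4 : (12 : ℕ) = 2 ^ 2 * 3 := by norm_num
            rw [h4, hp1.dvd_mul] at hd
            rcases hd with hd | hd
            · exact hp2 ((Nat.prime_dvd_prime_iff_eq hp1 Nat.prime_two).mp (hp1.dvd_of_dvd_pow hd))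
            · exact hp3 ((Nat.prime_dvd_prime_iff_eq hp1 Nat.prime_three).mp hd)
          have h5 : min (e.factorization p) ((12 : ℕ).factorization p) = 0 := by
            have := min_le_right (e.factorization p) ((12 : ℕ).factorization p)
            omega
          rw [h5, pow_zero]
          exact one_dvd _
      obtain ⟨m, hm⟩ := h3
      rw [hm, pow_mul, h1, one_pow]
  · push Not at h12
    exact h p _ hp1 G hG.1 hG.2 hx h12

end Pool.Agent.LibFB69
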