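import Mathlib

set_option autoImplicit false

/-!
# Definitions: laws, local nilpotency, finitely based classes of groups (for MP_51ab1e_al)

All classes of groups are classes `V : (G : Type u) → [Group G] → Prop` of groups in a fixed universe.
-/

namespace Pool.Agent.LibFB69

universe u

/-- The group `G` satisfies the law `w = 1` (`w` a word in the letters `0, 1, 2, ...`). -/
def Sat (G : Type u) [Group G] (w : FreeGroup ℕ) : Prop := ∀ f : ℕ → G, FreeGroup.lift f w = 1

/-- `G` is locally nilpotent. -/
def LocNilp (G : Type u) [Group G] : Prop := ∀ H : Subgroup G, H.FG → Group.IsNilpotent H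

/-- The class `C` of groups is a finitely based variety: it is defined by finitely many laws. -/
def FinBased (C : (G : Type u) → [Group G] → Prop) : Prop :=
  ∃ W : Finset (FreeGroup ℕ), ∀ (G : Type u) [Group G], C G ↔ ∀ w ∈ W, Sat G w

/-- The class of the locally nilpotent groups in `V`. -/
def Bar (V : (G : Type u) → [Group G] → Prop) (G : Type u) [Group G] : Prop :=
  V G ∧ LocNilp G

/-- The class of the locally nilpotent groups in `V` which satisfy `x ^ n = 1`. -/
def Part (V : (G : Type u) → [Group G] → Prop) (n : ℕ) (G : Type u) [Group G] : Prop :=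
  V G ∧ LocNilp G ∧ ∀ x : G, x ^ n = 1

/-- The class of all locally nilpotent groups which satisfy `x ^ n = 1`. -/
def Burn (n : ℕ) (G : Type u) [Group G] : Prop :=
  LocNilp G ∧ ∀ x : G, x ^ n = 1

/-- Every locally nilpotent group `G` in `V` has a normal subgroup `N` of nilpotency class at most `c`
with `G / N` locally nilpotent of exponent dividing `e`, and a normal subgroup `M` which is locally
nilpotent of exponent dividing `e` with `G / M` of nilpotency class at most `c`. -/
def GB (V : (G : Type u) → [Group G] → Prop) (c e : ℕ) : Prop :=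
  ∀ (G : Type u) [Group G], V G → LocNilp G →
    (∃ N : Subgroup G, ∃ _ : N.Normal,
      N.lowerCentralSeries c = ⊥ ∧ LocNilp (G ⧸ N) ∧ ∀ x : G ⧸ N, x ^ e = 1) ∧
    (∃ M : Subgroup G, ∃ _ : M.Normal,
      (LocNilp M ∧ ∀ x : M, x ^ e = 1) ∧ (⊤ : Subgroup (G ⧸ M)).lowerCentralSeries c = ⊥)

/-- `V` is a strong generalised Burnside variety. -/
def StrongGB (V : (G : Type u) → [Group G] → Prop) : Prop :=
  ∃ c e : ℕ, 0 < c ∧ 0 < e ∧ GB V c e

/-- Every locally nilpotent group in `V` is (solvable of derived length at most `d`)-by-(exponent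
dividing `e`). -/
def SolvBy (V : (G : Type u) → [Group G] → Prop) (d e : ℕ) : Prop :=
  ∀ (G : Type u) [Group G], V G → LocNilp G →
    ∃ N : Subgroup G, ∃ _ : N.Normal, derivedSeries N d = ⊥ ∧ ∀ x : G ⧸ N, x ^ e = 1

/-- Every locally nilpotent group in `V` has a solvable normal subgroup of derived length at most `d`
with quotient in `Y`. -/
def SolvByClass (V Y : (G : Type u) → [Group G] → Prop) (d : ℕ) : Prop :=
  ∀ (G : Type u) [Group G], V G → LocNilp G →
    ∃ N : Subgroup G, ∃ _ : N.Normal, derivedSeries N d = ⊥ ∧ Y (G ⧸ N)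

/-- The class of the groups which are in `V` and in `Y`. -/
def Inter (V Y : (G : Type u) → [Group G] → Prop) (G : Type u) [Group G] : Prop :=
  V G ∧ Y G

/-- The class `C` of groups is a variety: it is defined by a set of laws. -/
def IsVariety (C : (G : Type u) → [Group G] → Prop) : Prop :=
  ∃ S : Set (FreeGroup ℕ), ∀ (G : Type u) [Group G], C G ↔ ∀ w ∈ S, Sat G w

/-- Every locally nilpotent group in `V` of prime power exponent which is not in `Y` has an abelian
normal subgroup other than `1`. -/
def HyperabOver (V Y : (G : Type u) → [Group G] → Prop) : Prop :=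
  ∀ p k : ℕ, p.Prime → ∀ (G : Type u) [Group G], Part V (p ^ k) G → ¬ Y G →
    ∃ A : Subgroup G, A.Normal ∧ A ≠ ⊥ ∧ ∀ a ∈ A, ∀ b ∈ A, a * b = b * a

end Pool.Agent.LibFB69
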