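import Pool.Agent.LibFB69.Main

set_option autoImplicit false

/-!
# Engel bounds (helper file for MP_51ab1e_al)
-/

namespace Pool.Agent.LibFB69

open Subgroup commutatorElement

universe u

/-- The iterated commutator `[y, [y, ... [y, x]]]`. -/
def eng {G : Type u} [Group G] (y : G) (s : ℕ) (x : G) : G := (fun t => ⁅y, t⁆)^[s] x

theorem eng_zero {G : Type u} [Group G] (y x : G) : eng y 0 x = x := rfl

theorem eng_succ {G : Type u} [Group G] (y : G) (s : ℕ) (x : G) : eng y (s + 1) x = ⁅y, eng y s x⁆ :=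
  Function.iterate_succ_apply' _ _ _

theorem map_eng {G H : Type u} [Group G] [Group H] (φ : G →* H) (y : G) (s : ℕ) (x : G) :
    φ (eng y s x) = eng (φ y) s (φ x) := by
  induction s with
  | zero => rfl
  | succ s ih => rw [eng_succ, eng_succ, map_commutatorElement, ih]

theorem eng_add {G : Type u} [Group G] (y : G) (a b : ℕ) (x : G) :
    eng y (a + b) x = eng y a (eng y b x) := Function.iterate_add_apply _ _ _ _

theorem eng_one {G : Type u} [Group G] (y : G) (s : ℕ) : eng y s 1 = 1 := by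
  induction s with
  | zero => rfl
  | succ s ih => rw [eng_succ, ih, commutatorElement_one_right]

theorem eng_mem {G : Type u} [Group G] (A : Subgroup G) (hA : A.Normal) (y : G) (s : ℕ) {x : G}
    (hx : x ∈ A) : eng y s x ∈ A := by
  induction s with
  | zero => exact hx
  | succ s ih =>
    rw [eng_succ, commutatorElement_def]
    exact mul_mem (hA.conj_mem _ ih y) (inv_mem ih)

theorem eng_mem_lcs {G : Type u} [Group G] (y : G) (s : ℕ) (x : G) :
    eng y s x ∈ (⊤ : Subgroup G).lowerCentralSeries s := by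
  induction s with
  | zero => exact mem_top _
  | succ s ih =>
    rw [eng_succ, Subgroup.lowerCentralSeries_succ, Subgroup.commutator_comm]
    exact commutator_mem_commutator (mem_top y) ih

theorem LocNilp.eng {G : Type u} [Group G] (hG : LocNilp G) (x y : G) :
    ∃ c : ℕ, eng y c x = 1 := by
  have h1 : Group.IsNilpotent (Subgroup.closure {x, y}) := hG.closure (Set.toFinite _)
  obtain ⟨c, hc⟩ := Subgroup.nilpotent_iff_lowerCentralSeries.mp h1
  refine ⟨c, ?_⟩
  have hx : x ∈ Subgroup.closure {x, y} := subset_closure (by simp)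
  have hy : y ∈ Subgroup.closure {x, y} := subset_closure (by simp)
  have h2 := eng_mem_lcs (⟨y, hy⟩ : Subgroup.closure {x, y}) c ⟨x, hx⟩
  rw [hc, mem_bot] at h2
  have h3 := congrArg (Subgroup.closure {x, y}).subtype h2
  rw [map_eng, map_one] at h3
  exact h3

theorem sat_pi {ι : Type} (G : ι → Type u) [∀ i, Group (G i)] {w : FreeGroup ℕ}
    (h : ∀ i, Sat (G i) w) : Sat (∀ i, G i) w := by
  intro f
  funext i
  have h1 := map_lift (Pi.evalMonoidHom G i) f w
  rw [h i] at h1
  exact h1

theorem engel_bound {C : (G : Type u) → [Group G] → Prop} (hC : FinBased C)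
    (hloc : ∀ (G : Type u) [Group G], C G → LocNilp G) :
    ∃ s : ℕ, ∀ (G : Type u) [Group G], C G → ∀ x y : G, eng y s x = 1 := by
  by_contra hcon
  push Not at hcon
  choose G hG hCG x y hxy using hcon
  obtain ⟨W, hW⟩ := hC
  have h1 : C (∀ s : ℕ, G s) := (hW _).mpr fun w hw => sat_pi G fun i => (hW (G i)).mp (hCG i) w hw
  obtain ⟨c, hc⟩ := (hloc _ h1).eng x y
  apply hxy c
  have h2 := map_eng (Pi.evalMonoidHom G c) y c x
  rw [hc, map_one] at h2
  exact h2.symm

/-- Powers of `X - 1` modulo `X ^ e - 1` over `ZMod e`. -/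
theorem pigeon (e : ℕ) (he : 0 < e) : ∃ i j : ℕ, i < j ∧
    (Polynomial.X ^ e - 1 : Polynomial (ZMod e)) ∣ (Polynomial.X - 1) ^ i - (Polynomial.X - 1) ^ j := by
  have : NeZero e := ⟨he.ne'⟩
  have hm : (Polynomial.X ^ e - 1 : Polynomial (ZMod e)).Monic := by
    have := Polynomial.monic_X_pow_sub_C (1 : ZMod e) he.ne'
    rwa [map_one] at this
  have h1 : Module.Finite (ZMod e) (AdjoinRoot (Polynomial.X ^ e - 1 : Polynomial (ZMod e))) :=
    hm.finite_adjoinRoot
  have h2 : Finite (AdjoinRoot (Polynomial.X ^ e - 1 : Polynomial (ZMod e))) :=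
    Module.finite_of_finite (ZMod e)
  obtain ⟨i, j, hij, h⟩ := Finite.exists_ne_map_eq_of_infinite (fun n : ℕ =>
    AdjoinRoot.mk (Polynomial.X ^ e - 1 : Polynomial (ZMod e)) ((Polynomial.X - 1) ^ n))
  rcases lt_or_gt_of_ne hij with hlt | hlt
  · exact ⟨i, j, hlt, AdjoinRoot.mk_eq_mk.mp h⟩
  · exact ⟨j, i, hlt, AdjoinRoot.mk_eq_mk.mp h.symm⟩

end Pool.Agent.LibFB69
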