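import Pool.Agent.LibFB69.Sanov

set_option autoImplicit false

/-!
# Final assembly (helper file for MP_51ab1e_al)
-/

namespace Pool.Agent.LibFB69

open Subgroup commutatorElement

universe u

theorem part_of_bar {V : (G : Type u) → [Group G] → Prop} (h : FinBased (Bar V)) (n : ℕ) :
    FinBased (Part V n) := by
  classical
  obtain ⟨W, hW⟩ := h
  refine ⟨insert ((FreeGroup.of 0) ^ n) W, fun G _ => ?_⟩
  rw [Finset.forall_mem_insert, sat_pow, ← hW]
  exact ⟨fun h => ⟨h.2.2, h.1, h.2.1⟩, fun h => ⟨h.2.1, h.2.2, h.1⟩⟩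

theorem part_of_burn {V : (G : Type u) → [Group G] → Prop} (hV : FinBased V) {n : ℕ}
    (h : FinBased (Burn.{u} n)) : FinBased (Part V n) := by
  classical
  obtain ⟨U, hU⟩ := hV
  obtain ⟨W, hW⟩ := h
  refine ⟨U ∪ W, fun G _ => ?_⟩
  rw [Finset.forall_mem_union, ← hU, ← hW]
  rfl

theorem part_of_loc {V : (G : Type u) → [Group G] → Prop} (hV : FinBased V) {n : ℕ}
    (h : ∀ (G : Type u) [Group G], V G → (∀ x : G, x ^ n = 1) → LocNilp G) : FinBased (Part V n) := by
  classical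
  obtain ⟨U, hU⟩ := hV
  refine ⟨insert ((FreeGroup.of 0) ^ n) U, fun G _ => ?_⟩
  rw [Finset.forall_mem_insert, sat_pow, ← hU]
  exact ⟨fun h => ⟨h.2.2, h.1⟩, fun h' => ⟨h'.2, h G h'.2 h'.1, h'.1⟩⟩

theorem bar_iff {V : (G : Type u) → [Group G] → Prop} (hV : FinBased V) {c e : ℕ} (he : 0 < e)
    (hGB : GB V c e) :
    FinBased (Bar V) ↔ ∀ p ∈ e.primeFactors, FinBased (Part V (p ^ e.factorization p)) :=
  ⟨fun h p _ => part_of_bar h _, fun h => bar_fb hV he hGB ((main hV e he).mpr h)⟩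

theorem finBased_pow (n : ℕ) : FinBased (fun (G : Type u) _ => ∀ x : G, x ^ n = 1) :=
  ⟨{(FreeGroup.of 0) ^ n}, fun G _ => by simp only [Finset.mem_singleton, forall_eq, sat_pow]⟩

theorem gb_pow (e : ℕ) : GB (fun (G : Type u) _ => ∀ x : G, x ^ e = 1) 1 e := by
  intro G _ h1 h2
  refine ⟨⟨⊥, inferInstance, ?_, ?_, ?_⟩, ⟨⊤, inferInstance, ⟨?_, ?_⟩, ?_⟩⟩
  · rw [eq_bot_iff]
    exact Subgroup.lowerCentralSeries_le_self _ _
  · exact h2.of_surjective (QuotientGroup.mk' ⊥) (QuotientGroup.mk'_surjective ⊥)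
  · intro x
    obtain ⟨x, rfl⟩ := QuotientGroup.mk'_surjective (⊥ : Subgroup G) x
    rw [← map_pow, h1, map_one]
  · exact h2.subgroup ⊤
  · intro x
    exact Subtype.ext (by push_cast; exact h1 _)
  · rw [eq_bot_iff]
    intro x _
    obtain ⟨x, rfl⟩ := QuotientGroup.mk'_surjective (⊤ : Subgroup G) x
    rw [mem_bot]
    exact (QuotientGroup.eq_one_iff x).mpr (mem_top x)

theorem burn_of_bar {e n : ℕ} (hn : n ∣ e)
    (h : FinBased (Bar (fun (G : Type u) _ => ∀ x : G, x ^ e = 1))) : FinBased (Burn.{u} n) := by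
  obtain ⟨W, hW⟩ := part_of_bar h n
  refine ⟨W, fun G _ => ?_⟩
  rw [← hW]
  refine ⟨fun h' => ⟨fun x => ?_, h'.1, h'.2⟩, fun h' => ⟨h'.2.1, h'.2.2⟩⟩
  obtain ⟨m, rfl⟩ := hn
  rw [pow_mul, h'.2, one_pow]

theorem per_exponent (e : ℕ) (he : 0 < e) :
    (∀ (V : (G : Type u) → [Group G] → Prop) (c : ℕ), FinBased V → GB V c e → FinBased (Bar V)) ↔
      ∀ p ∈ e.primeFactors, FinBased (Burn.{u} (p ^ e.factorization p)) := by
  constructor
  · intro h p _
    exact burn_of_bar (Nat.ordProj_dvd e p) (h _ 1 (finBased_pow e) (gb_pow e))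
  · intro h V c hV hGB
    exact (bar_iff hV he hGB).mpr fun p hp => part_of_burn hV (h p hp)

theorem small_part {V : (G : Type u) → [Group G] → Prop} (hV : FinBased V) {n : ℕ}
    (hn : n ∣ 4 ∨ n ∣ 3) : FinBased (Part V n) := by
  refine part_of_loc hV fun G _ _ hG => ?_
  rcases hn with ⟨m, hm⟩ | ⟨m, hm⟩
  · exact locNilp_four fun x => by rw [hm, pow_mul, hG, one_pow]
  · exact locNilp_three fun x => by rw [hm, pow_mul, hG, one_pow]

theorem factorization_le {e p k : ℕ} (he : e ≠ 0) (hp : p.Prime) (h : ¬ p ^ (k + 1) ∣ e) :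
    e.factorization p ≤ k := by
  rw [hp.pow_dvd_iff_le_factorization he] at h
  omega

theorem dvd_twelve {V : (G : Type u) → [Group G] → Prop} (hV : FinBased V) {c e : ℕ} (he : e ∣ 12)
    (hGB : GB V c e) : FinBased (Bar V) := by
  have he0 : 0 < e := Nat.pos_of_dvd_of_pos he (by norm_num)
  refine (bar_iff hV he0 hGB).mpr fun p hp => small_part hV ?_
  have hp1 := Nat.prime_of_mem_primeFactors hp
  have hp2 : p ∈ (12 : ℕ).primeFactors := Nat.primeFactors_mono he (by norm_num) hp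
  have hp3 : p = 2 ∨ p = 3 := by
    have h1 : (12 : ℕ) = 2 ^ 2 * 3 := by norm_num
    have h2 := (Nat.mem_primeFactors.mp hp2).2.1
    rw [h1, hp1.dvd_mul] at h2
    rcases h2 with h2 | h2
    · exact Or.inl ((Nat.prime_dvd_prime_iff_eq hp1 Nat.prime_two).mp (hp1.dvd_of_dvd_pow h2))
    · exact Or.inr ((Nat.prime_dvd_prime_iff_eq hp1 Nat.prime_three).mp h2)
  rcases hp3 with rfl | rfl
  · left
    have h1 := factorization_le (k := 2) he0.ne' hp1 (fun h => by
      have := h.trans he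
      norm_num at this)
    exact (pow_dvd_pow 2 h1).trans (by norm_num)
  · right
    have h1 := factorization_le (k := 1) he0.ne' hp1 (fun h => by
      have := h.trans he
      norm_num at this)
    exact (pow_dvd_pow 3 h1).trans (by norm_num)

theorem with_primes (hZ : ∀ p : ℕ, p.Prime → FinBased (Burn.{u} p))
    {V : (G : Type u) → [Group G] → Prop} (hV : FinBased V) {c e : ℕ} (he : 0 < e) (h8 : ¬ 8 ∣ e)
    (hsq : ∀ p : ℕ, p.Prime → p ≠ 2 → ¬ p ^ 2 ∣ e) (hGB : GB V c e) : FinBased (Bar V) := by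
  refine (bar_iff hV he hGB).mpr fun p hp => ?_
  have hp1 := Nat.prime_of_mem_primeFactors hp
  by_cases hp2 : p = 2
  · subst hp2
    have h1 := factorization_le (k := 2) he.ne' hp1 h8
    exact small_part hV (Or.inl ((pow_dvd_pow 2 h1).trans (by norm_num)))
  · have h1 := factorization_le (k := 1) he.ne' hp1 (hsq p hp1 hp2)
    have h2 : 1 ≤ e.factorization p :=
      hp1.factorization_pos_of_dvd he.ne' (Nat.dvd_of_mem_primeFactors hp)
    have h3 : e.factorization p = 1 := by omega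
    rw [h3, pow_one]
    exact part_of_burn hV (hZ p hp1)

theorem global_iff :
    (∀ V : (G : Type u) → [Group G] → Prop, FinBased V → StrongGB V → FinBased (Bar V)) ↔
      ∀ p k : ℕ, p.Prime → 0 < k → FinBased (Burn.{u} (p ^ k)) := by
  constructor
  · intro h p k hp hk
    exact burn_of_bar dvd_rfl (h _ (finBased_pow (p ^ k)) ⟨1, p ^ k, one_pos, pow_pos hp.pos k, gb_pow _⟩)
  · rintro h V hV ⟨c, e, _, he, hGB⟩
    refine (per_exponent e he).mpr ?_ V c hV hGB
    intro p hp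
    have hp1 := Nat.prime_of_mem_primeFactors hp
    exact h p _ hp1 (hp1.factorization_pos_of_dvd he.ne' (Nat.dvd_of_mem_primeFactors hp))

end Pool.Agent.LibFB69
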