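import Pool.Agent.LibFB69.Bar

set_option autoImplicit false

/-!
# Finite nilpotent groups acting unipotently; a theorem of Gruenberg type (helper file for MP_51ab1e_al)
-/

namespace Pool.Agent.LibFB69

open Subgroup commutatorElement

universe u v

theorem finite_of_fg_exp (E : ℕ) (hE : 0 < E) (G : Type u) [Group G] [Group.IsNilpotent G]
    (hfg : Group.FG G) (h : ∀ x : G, x ^ E = 1) : Finite G := by
  revert hfg h
  refine Group.nilpotent_center_quotient_ind
    (P := fun G _ _ => Group.FG G → (∀ x : G, x ^ E = 1) → Finite G) G ?_ ?_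
  · intro G _ _ _ _
    infer_instance
  · intro G _ _ ih hfg h
    have h1 : Finite (G ⧸ Subgroup.center G) := ih inferInstance (fun x => by
      obtain ⟨x, rfl⟩ := QuotientGroup.mk_surjective x
      rw [← QuotientGroup.mk_pow, h]; rfl)
    have h2 : (Subgroup.center G).FiniteIndex := Subgroup.finiteIndex_of_finite_quotient
    have h3 : Group.FG (Subgroup.center G) := inferInstance
    let _ : CommGroup (Subgroup.center G) :=
      { (inferInstance : Group (Subgroup.center G)) with
        mul_comm := fun a b => Subtype.ext ((mem_center_iff.mp b.2) a) }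
    have h4 : Finite (Subgroup.center G) := CommGroup.finite_of_fg_isMulTorsion _ (fun x =>
      isOfFinOrder_iff_pow_eq_one.mpr ⟨E, hE, Subtype.ext (h x)⟩)
    exact Finite.of_equiv _ (Subgroup.groupEquivQuotientProdSubgroup (s := Subgroup.center G)).symm

theorem exists_center (Q : Type u) [Group Q] [Group.IsNilpotent Q] [Nontrivial Q] :
    ∃ z ∈ center Q, z ≠ 1 := by
  classical
  have h := Subgroup.nilpotent_iff_lowerCentralSeries.mp ‹Group.IsNilpotent Q›
  obtain ⟨n, hn, hmin⟩ : ∃ n, (⊤ : Subgroup Q).lowerCentralSeries n = ⊥ ∧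
      ∀ m < n, (⊤ : Subgroup Q).lowerCentralSeries m ≠ ⊥ :=
    ⟨Nat.find h, Nat.find_spec h, fun m hm => Nat.find_min h hm⟩
  cases n with
  | zero => exact absurd hn top_ne_bot
  | succ n =>
    rcases Subgroup.bot_or_exists_ne_one ((⊤ : Subgroup Q).lowerCentralSeries n) with h1 | ⟨z, hz, hz1⟩
    · exact absurd h1 (hmin n (Nat.lt_succ_self n))
    · refine ⟨z, ?_, hz1⟩
      rw [Subgroup.lowerCentralSeries_succ, Subgroup.commutator_top_right_eq_bot_iff_le_center] at hn
      exact hn hz

theorem ring_nil (k : ℕ) (n : ℕ) : ∀ (Q : Type u) [Group Q] [Finite Q] [Group.IsNilpotent Q],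
    Nat.card Q ≤ n → ∃ m : ℕ, ∀ (S : Type v) [Ring S] (ρ : Q →* S), (∀ g, (ρ g - 1) ^ k = 0) →
    ∀ l : List Q, l.length = m → (l.map (fun g => ρ g - 1)).prod = 0 := by
  induction n with
  | zero =>
    intro Q _ _ _ h
    exact absurd h (by have := Nat.card_pos (α := Q); omega)
  | succ n ih =>
    intro Q _ _ _ h
    rcases subsingleton_or_nontrivial Q with hQ | hQ
    · refine ⟨1, fun S _ ρ _ l hl => ?_⟩
      obtain ⟨g, rfl⟩ := List.length_eq_one_iff.mp hl
      rw [Subsingleton.elim g 1]
      simp
    · obtain ⟨z, hz, hz1⟩ := exists_center Q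
      have hnorm : (Subgroup.zpowers z).Normal := by
        refine ⟨fun x hx g => ?_⟩
        have h1 : Subgroup.zpowers z ≤ center Q := by
          rw [Subgroup.zpowers_le]; exact hz
        have h2 := (mem_center_iff.mp (h1 hx)) g
        rw [h2, mul_inv_cancel_right]
        exact hx
      have hcard : Nat.card (Q ⧸ Subgroup.zpowers z) ≤ n := by
        have h1 := Subgroup.card_eq_card_quotient_mul_card_subgroup (Subgroup.zpowers z)
        have h2 : 1 < Nat.card (Subgroup.zpowers z) := by
          rw [Subgroup.one_lt_card_iff_ne_bot, Ne, Subgroup.zpowers_eq_bot]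
          exact hz1
        have h3 : 0 < Nat.card (Q ⧸ Subgroup.zpowers z) := Nat.card_pos
        nlinarith
      obtain ⟨m, hm⟩ := ih (Q ⧸ Subgroup.zpowers z) hcard
      refine ⟨m * k, fun S _ ρ hρ l hl => ?_⟩
      obtain ⟨S1, hS1⟩ : ∃ S1, S1 = Subring.centralizer {ρ z - 1} := ⟨_, rfl⟩
      have hmem : ∀ g, ρ g ∈ S1 := by
        intro g
        rw [hS1, Subring.mem_centralizer_iff]
        rintro _ rfl
        rw [sub_mul, mul_sub, one_mul, mul_one, ← map_mul, ← map_mul, (mem_center_iff.mp hz) g]
      obtain ⟨ρ', hρ'⟩ : ∃ ρ' : Q →* S1, ∀ g, (ρ' g : S) = ρ g :=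
        ⟨ρ.codRestrict S1 hmem, fun g => rfl⟩
      have hcomm : ∀ s : S1, s * (ρ' z - 1) = (ρ' z - 1) * s := by
        intro s
        have h1 := Subring.mem_centralizer_iff.mp (hS1.le s.2)
        apply Subtype.ext
        push_cast
        rw [hρ']
        exact (h1 _ rfl).symm
      obtain ⟨J, hJ⟩ : ∃ J : Ideal S1, J = Ideal.span {ρ' z - 1} := ⟨_, rfl⟩
      have hJ2 : J.IsTwoSided := by
        refine ⟨fun {a} b ha => ?_⟩
        rw [hJ, Ideal.mem_span_singleton'] at ha ⊢
        obtain ⟨a', rfl⟩ := ha
        exact ⟨a' * b, by rw [mul_assoc, hcomm, mul_assoc]⟩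
      obtain ⟨ρ2, hρ2⟩ : ∃ ρ2 : Q →* S1 ⧸ J, ∀ g, ρ2 g = Ideal.Quotient.mk J (ρ' g) :=
        ⟨(Ideal.Quotient.mk J : S1 →* S1 ⧸ J).comp ρ', fun g => rfl⟩
      have hker : Subgroup.zpowers z ≤ ρ2.ker := by
        rw [Subgroup.zpowers_le, MonoidHom.mem_ker, hρ2, ← sub_eq_zero, ← map_one (Ideal.Quotient.mk J),
          ← map_sub, Ideal.Quotient.eq_zero_iff_mem, hJ]
        exact Ideal.subset_span rfl
      have hk1 : ∀ g, (ρ' g - 1) ^ k = 0 := by
        intro g
        apply Subtype.ext
        push_cast
        rw [hρ']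
        exact hρ g
      have key : ∀ l' : List Q, l'.length = m → (l'.map (fun g => ρ' g - 1)).prod ∈ J := by
        intro l' hl'
        have h1 := hm (S1 ⧸ J) (QuotientGroup.lift _ ρ2 hker) (by
          intro g
          obtain ⟨g, rfl⟩ := QuotientGroup.mk_surjective g
          rw [QuotientGroup.lift_mk, hρ2, ← map_one (Ideal.Quotient.mk J), ← map_sub, ← map_pow, hk1,
            map_zero]) (l'.map (fun g => (QuotientGroup.mk g : Q ⧸ Subgroup.zpowers z))) (by
          rw [List.length_map, hl'])
        rw [← Ideal.Quotient.eq_zero_iff_mem, map_list_prod, ← h1, List.map_map, List.map_map]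
        congr 1
        apply List.map_congr_left
        intro g _
        simp only [Function.comp_apply, QuotientGroup.lift_mk, hρ2, map_sub, map_one]
      have key2 : ∀ j : ℕ, ∀ l : List Q, l.length = m * j →
          ∃ a : S1, (l.map (fun g => ρ' g - 1)).prod = a * (ρ' z - 1) ^ j := by
        intro j
        induction j with
        | zero =>
          intro l hl
          exact ⟨_, by rw [pow_zero, mul_one]⟩
        | succ j ihj =>
          intro l hl
          obtain ⟨a, ha⟩ := ihj (l.drop m) (by rw [List.length_drop, hl, mul_add, mul_one]; omega)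
          have h1 := key (l.take m) (by rw [List.length_take, hl, mul_add, mul_one]; omega)
          rw [hJ, Ideal.mem_span_singleton'] at h1
          obtain ⟨b, hb⟩ := h1
          refine ⟨b * a, ?_⟩
          rw [← List.take_append_drop m l, List.map_append, List.prod_append, ← hb, ha, mul_assoc,
            ← mul_assoc _ a, ← hcomm a, mul_assoc a, ← mul_assoc b a, pow_succ']
      obtain ⟨a, ha⟩ := key2 k l hl
      rw [hk1, mul_zero] at ha
      have h1 := congrArg S1.subtype ha
      rw [map_list_prod, map_zero, List.map_map] at h1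
      rw [← h1]
      congr 1
      apply List.map_congr_left
      intro g _
      simp only [Function.comp_apply, map_sub, map_one, Subring.subtype_apply, hρ']

end Pool.Agent.LibFB69
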