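import Pool.Agent.LibFB69.Gru

set_option autoImplicit false

/-!
# A theorem of Gruenberg type (helper file for MP_51ab1e_al)
-/

namespace Pool.Agent.LibFB69

open Subgroup commutatorElement

universe u

/-- An abelian normal subgroup on which a finite nilpotent group acts by a bounded Engel action is
contained in a term of the upper central series. -/
theorem le_upper {k : ℕ} {Q : Type u} [Group Q] [Finite Q] [Group.IsNilpotent Q] {H : Type u} [Group H]
    (φ : H →* Q) (hφ : Function.Surjective φ) (A : Subgroup H) (hA : A.Normal)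
    (hcomm : ∀ a ∈ A, ∀ b ∈ A, Commute a b) (hker : ∀ a ∈ A, ∀ h ∈ φ.ker, Commute h a)
    (hE : ∀ x y : H, eng y k x = 1) : ∃ m : ℕ, A ≤ Subgroup.upperCentralSeries H m := by
  let _ : CommGroup A :=
    { (inferInstance : Group A) with mul_comm := fun a b => Subtype.ext (hcomm a a.2 b b.2) }
  obtain ⟨m, hm⟩ := ring_nil.{u, u} k (Nat.card Q) Q le_rfl
  refine ⟨m, ?_⟩
  obtain ⟨ρH, hρH⟩ : ∃ ρH : H →* AddMonoid.End (Additive A), ∀ h : H, ∀ v : Additive A,
      ((Additive.toMul (ρH h v) : A) : H) = h * (Additive.toMul v : A) * h⁻¹ := by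
    refine ⟨{ toFun := fun h => MonoidHom.toAdditive ((MulAut.conjNormal h : MulAut A).toMonoidHom)
              map_one' := ?_
              map_mul' := ?_ }, fun h v => rfl⟩
    · apply AddMonoidHom.ext
      intro v
      apply Additive.toMul.injective
      apply Subtype.ext
      show (1 : H) * (Additive.toMul v : A) * (1 : H)⁻¹ = (Additive.toMul v : A)
      group
    · intro a b
      apply AddMonoidHom.ext
      intro v
      apply Additive.toMul.injective
      apply Subtype.ext
      show (a * b) * (Additive.toMul v : A) * (a * b)⁻¹ = a * (b * (Additive.toMul v : A) * b⁻¹) * a⁻¹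
      group
  have hsub : ∀ h : H, ∀ v : Additive A,
      ((Additive.toMul ((ρH h - 1) v) : A) : H) = ⁅h, ((Additive.toMul v : A) : H)⁆ := by
    intro h v
    have h1 : (ρH h - 1) v = ρH h v - v := rfl
    rw [h1, toMul_sub, Subgroup.coe_div, hρH, commutatorElement_def, div_eq_mul_inv]
  have h3 : ∀ h : H, ∀ n : ℕ, ∀ v : Additive A,
      ((Additive.toMul (((ρH h - 1) ^ n) v) : A) : H) = eng h n (Additive.toMul v : A) := by
    intro h n v
    induction n with
    | zero => rfl
    | succ n ih =>
      have h1 : ((ρH h - 1) ^ (n + 1)) v = (ρH h - 1) (((ρH h - 1) ^ n) v) := by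
        rw [pow_succ']; rfl
      rw [h1, hsub, ih, eng_succ]
  have h4 : ∀ h : H, (ρH h - 1) ^ k = 0 := by
    intro h
    apply AddMonoidHom.ext
    intro v
    apply Additive.toMul.injective
    apply Subtype.ext
    refine (h3 h k v).trans ?_
    rw [hE]
    rfl
  have h5 : φ.ker ≤ ρH.ker := by
    intro h hh
    rw [MonoidHom.mem_ker]
    apply AddMonoidHom.ext
    intro v
    apply Additive.toMul.injective
    apply Subtype.ext
    refine (hρH h v).trans ?_
    rw [(hker _ (Additive.toMul v).2 h hh).eq, mul_inv_cancel_right]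
    rfl
  obtain ⟨ρ, hρ⟩ : ∃ ρ : Q →* AddMonoid.End (Additive A), ∀ h : H, ρ (φ h) = ρH h := by
    refine ⟨(QuotientGroup.lift φ.ker ρH h5).comp
      (QuotientGroup.quotientKerEquivOfSurjective φ hφ).symm.toMonoidHom, fun h => ?_⟩
    have h6 : (QuotientGroup.quotientKerEquivOfSurjective φ hφ).symm (φ h) = (h : H ⧸ φ.ker) :=
      (MulEquiv.symm_apply_eq _).mpr rfl
    rw [MonoidHom.comp_apply]
    show (QuotientGroup.lift φ.ker ρH h5) ((QuotientGroup.quotientKerEquivOfSurjective φ hφ).symm (φ h)) = _
    rw [h6, QuotientGroup.lift_mk]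
  have h7 := hm (AddMonoid.End (Additive A)) ρ (fun g => by
    obtain ⟨h, rfl⟩ := hφ g
    rw [hρ, h4])
  have h8 : ∀ l : List H, l.length = m → (l.map (fun h => ρH h - 1)).prod = 0 := by
    intro l hl
    rw [← h7 (l.map φ) (by rw [List.length_map, hl]), List.map_map]
    congr 1
    apply List.map_congr_left
    intro h _
    rw [Function.comp_apply, hρ]
  have h9 : ∀ i : ℕ, ∀ v : Additive A, (∀ l : List H, l.length = i → (l.map (fun h => ρH h - 1)).prod v = 0) →
      ((Additive.toMul v : A) : H) ∈ Subgroup.upperCentralSeries H i := by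
    intro i
    induction i with
    | zero =>
      intro v hv
      have h10 := hv [] rfl
      have h11 : v = 0 := h10
      rw [h11]
      exact one_mem _
    | succ i ih =>
      intro v hv
      rw [Subgroup.mem_upperCentralSeries_succ_iff]
      intro h
      have h10 := ih ((ρH h - 1) v) (fun l hl => by
        have h11 := hv (l ++ [h]) (by rw [List.length_append, hl]; rfl)
        rw [List.map_append, List.prod_append, List.map_singleton, List.prod_singleton] at h11
        exact h11)
      rw [hsub] at h10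
      rw [← commutatorElement_inv]
      exact inv_mem h10
  intro a ha
  exact h9 m (Additive.ofMul ⟨a, ha⟩) (fun l hl => by rw [h8 l hl]; rfl)

theorem nilp_of_le_upper {H : Type u} [Group H] (A : Subgroup H) [A.Normal] {m : ℕ}
    (hA : A ≤ Subgroup.upperCentralSeries H m) (hQ : Group.IsNilpotent (H ⧸ A)) : Group.IsNilpotent H := by
  obtain ⟨n, hn⟩ := Subgroup.nilpotent_iff_lowerCentralSeries.mp hQ
  have h1 : (⊤ : Subgroup H).lowerCentralSeries n ≤ A := by
    rw [← QuotientGroup.ker_mk' A, ← Subgroup.map_eq_bot_iff, Subgroup.map_lowerCentralSeries,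
      Subgroup.map_top_of_surjective _ (QuotientGroup.mk'_surjective A), hn]
  have h2 : ∀ i j : ℕ, i + j = m → (⊤ : Subgroup H).lowerCentralSeries (n + i) ≤ Subgroup.upperCentralSeries H j := by
    intro i
    induction i with
    | zero =>
      intro j hj
      rw [zero_add] at hj
      rw [hj]
      exact h1.trans hA
    | succ i ih =>
      intro j hj
      rw [← add_assoc, Subgroup.lowerCentralSeries_succ]
      exact (Subgroup.commutator_mono (ih (j + 1) (by omega)) le_rfl).trans
        (Subgroup.commutator_upperCentralSeries_top_le H j)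
  rw [Subgroup.nilpotent_iff_lowerCentralSeries]
  refine ⟨n + m, ?_⟩
  rw [eq_bot_iff]
  exact h2 m 0 (by omega)

theorem gruenberg (k : ℕ) (Q : Type u) [Group Q] [Finite Q] [Group.IsNilpotent Q] (c : ℕ) :
    ∀ (H : Type u) [Group H] (φ : H →* Q), Function.Surjective φ →
      φ.ker.lowerCentralSeries c = ⊥ → (∀ x y : H, eng y k x = 1) → Group.IsNilpotent H := by
  induction c with
  | zero =>
    intro H _ φ _ hker _
    refine Subgroup.isNilpotent_of_ker_le_center φ ?_
    rw [Subgroup.lowerCentralSeries_zero] at hker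
    rw [hker]
    exact bot_le
  | succ c ih =>
    intro H _ φ hφ hker hE
    obtain ⟨A, hA⟩ : ∃ A, A = φ.ker.lowerCentralSeries c := ⟨_, rfl⟩
    have hAn : A.Normal := by rw [hA]; exact lcs_normal _ inferInstance c
    have hAk : A ≤ φ.ker := by rw [hA]; exact Subgroup.lowerCentralSeries_le_self _ c
    have hc : ∀ a ∈ A, ∀ h ∈ φ.ker, Commute h a := by
      intro a ha h hh
      rw [Subgroup.lowerCentralSeries_succ, ← hA] at hker
      have h1 : ⁅a, h⁆ ∈ ⁅A, φ.ker⁆ := commutator_mem_commutator ha hh
      rw [hker, mem_bot] at h1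
      exact (commutatorElement_eq_one_iff_commute.mp h1).symm
    obtain ⟨m, hm⟩ := le_upper φ hφ A hAn (fun a ha b hb => hc b hb a (hAk ha)) hc hE
    refine nilp_of_le_upper A hm ?_
    refine ih (H ⧸ A) (QuotientGroup.lift A φ hAk) (QuotientGroup.lift_surjective_of_surjective A φ hφ hAk)
      ?_ ?_
    · rw [QuotientGroup.ker_lift, ← Subgroup.map_lowerCentralSeries, ← hA, Subgroup.map_eq_bot_iff,
        QuotientGroup.ker_mk']
    · intro x y
      obtain ⟨x, rfl⟩ := QuotientGroup.mk'_surjective A x
      obtain ⟨y, rfl⟩ := QuotientGroup.mk'_surjective A y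
      rw [← map_eng, hE, map_one]

end Pool.Agent.LibFB69
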