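import Pool.Agent.LibFB69.Solv

set_option autoImplicit false

/-!
# Hyperabelian locally nilpotent parts (helper file for MP_51ab1e_al)
-/

namespace Pool.Agent.LibFB69

open Subgroup commutatorElement

universe u v

theorem closure_comm {G : Type u} [Group G] (S : Set G) (h : ∀ x ∈ S, ∀ y ∈ S, Commute x y) :
    ∀ x ∈ closure S, ∀ y ∈ closure S, Commute x y := by
  have h1 : ∀ y ∈ S, ∀ x ∈ closure S, Commute x y := by
    intro y hy x hx
    have h2 : closure S ≤ Subgroup.centralizer {y} := by
      rw [closure_le]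
      intro s hs
      rw [SetLike.mem_coe, mem_centralizer_singleton_iff]
      exact h s hs y hy
    exact mem_centralizer_singleton_iff.mp (h2 hx)
  intro x hx y hy
  have h2 : closure S ≤ Subgroup.centralizer {x} := by
    rw [closure_le]
    intro s hs
    rw [SetLike.mem_coe, mem_centralizer_singleton_iff]
    exact (h1 s hs x hx).symm
  exact (mem_centralizer_singleton_iff.mp (h2 hy)).symm

theorem normalClosure_comm {G : Type u} [Group G] (a : G) (h : ∀ g : G, Commute a (g * a * g⁻¹)) :
    ∀ x ∈ Subgroup.normalClosure {a}, ∀ y ∈ Subgroup.normalClosure {a}, Commute x y := by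
  refine closure_comm _ ?_
  intro x hx y hy
  obtain ⟨a1, ha1, hx⟩ := Group.mem_conjugatesOfSet_iff.mp hx
  obtain ⟨a2, ha2, hy⟩ := Group.mem_conjugatesOfSet_iff.mp hy
  have ha1' : a1 = a := ha1
  have ha2' : a2 = a := ha2
  rw [ha1'] at hx
  rw [ha2'] at hy
  obtain ⟨g, rfl⟩ := isConj_iff.mp hx
  obtain ⟨k, rfl⟩ := isConj_iff.mp hy
  have h1 := h (g⁻¹ * k)
  have h2 : ∀ u v : G, Commute u v → Commute (g * u * g⁻¹) (g * v * g⁻¹) := by
    intro u v huv
    have h3 := huv.eq
    show g * u * g⁻¹ * (g * v * g⁻¹) = g * v * g⁻¹ * (g * u * g⁻¹)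
    calc g * u * g⁻¹ * (g * v * g⁻¹) = g * (u * v) * g⁻¹ := by group
      _ = g * (v * u) * g⁻¹ := by rw [h3]
      _ = _ := by group
  have h3 := h2 _ _ h1
  have h4 : g * (g⁻¹ * k * a * (g⁻¹ * k)⁻¹) * g⁻¹ = k * a * k⁻¹ := by group
  rw [h4] at h3
  exact h3

theorem fg_closure {H : Type u} [Group H] (X : Set H) (h : (closure X).FG) :
    ∃ S : Finset H, (S : Set H) ⊆ X ∧ closure (S : Set H) = closure X := by
  classical
  have h1 : ∀ x ∈ closure X, ∃ S : Finset H, (S : Set H) ⊆ X ∧ x ∈ closure (S : Set H) := by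
    intro x hx
    induction hx using closure_induction with
    | mem x hx => exact ⟨{x}, by simpa using hx, subset_closure (by simp)⟩
    | one => exact ⟨∅, by simp, one_mem _⟩
    | mul x y _ _ hx hy =>
      obtain ⟨S, hS, hxS⟩ := hx
      obtain ⟨T, hT, hyT⟩ := hy
      refine ⟨S ∪ T, by rw [Finset.coe_union]; exact Set.union_subset hS hT, mul_mem ?_ ?_⟩
      · exact closure_mono (by rw [Finset.coe_union]; exact Set.subset_union_left) hxS
      · exact closure_mono (by rw [Finset.coe_union]; exact Set.subset_union_right) hyT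
    | inv x _ hx =>
      obtain ⟨S, hS, hxS⟩ := hx
      exact ⟨S, hS, inv_mem hxS⟩
  obtain ⟨Y, hY⟩ := h
  have h2 : ∀ y ∈ Y, y ∈ closure X := fun y hy => by rw [← hY]; exact subset_closure hy
  choose! S hS hyS using h1
  refine ⟨Y.biUnion S, ?_, le_antisymm ?_ ?_⟩
  · intro x hx
    obtain ⟨y, hy, hxy⟩ := Finset.mem_biUnion.mp (Finset.mem_coe.mp hx)
    exact hS y (h2 y hy) hxy
  · refine closure_mono ?_
    intro x hx
    obtain ⟨y, hy, hxy⟩ := Finset.mem_biUnion.mp (Finset.mem_coe.mp hx)
    exact hS y (h2 y hy) hxy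
  · rw [← hY, closure_le]
    intro y hy
    refine closure_mono ?_ (hyS y (h2 y hy))
    intro x hx
    exact Finset.mem_coe.mpr (Finset.mem_biUnion.mpr ⟨y, hy, hx⟩)

theorem fin_ind {H : Type u} [Group H] [Group.FG H] (q : ℕ) (hq : 0 < q) (hx : ∀ x : H, x ^ q = 1)
    (S : Finset H) (hS : ∀ s ∈ S, ∀ h : H, Commute s (h * s * h⁻¹))
    (hfin : Finite (H ⧸ Subgroup.normalClosure (S : Set H))) : Finite H := by
  classical
  induction S using Finset.induction_on with
  | empty =>
    rw [Finset.coe_empty] at hfin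
    have h1 : Subgroup.normalClosure (∅ : Set H) = ⊥ := by
      rw [Subgroup.normalClosure, Group.conjugatesOfSet]
      simp
    rw [h1] at hfin
    exact Finite.of_injective (QuotientGroup.mk : H → H ⧸ (⊥ : Subgroup H)) (by
      intro x y hxy
      rw [QuotientGroup.eq, mem_bot] at hxy
      exact (inv_mul_eq_one.mp hxy))
  | insert a S _ ih =>
    refine ih (fun s hs => hS s (Finset.mem_insert_of_mem hs)) ?_
    obtain ⟨N, hN⟩ : ∃ N, N = Subgroup.normalClosure (S : Set H) := ⟨_, rfl⟩
    have hNn : N.Normal := by rw [hN]; infer_instance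
    rw [← hN]
    obtain ⟨B, hB⟩ : ∃ B, B = (Subgroup.normalClosure {a}).map (QuotientGroup.mk' N) := ⟨_, rfl⟩
    have hBn : B.Normal := by
      rw [hB]
      exact Subgroup.Normal.map inferInstance _ (QuotientGroup.mk'_surjective N)
    have h1 : (Subgroup.normalClosure ((insert a S : Finset H) : Set H)).FiniteIndex :=
      Subgroup.finiteIndex_of_finite_quotient
    have h2 : Subgroup.normalClosure ((insert a S : Finset H) : Set H) ≤
        B.comap (QuotientGroup.mk' N) := by
      refine Subgroup.normalClosure_le_normal ?_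
      rw [Finset.coe_insert, Set.insert_subset_iff]
      refine ⟨?_, ?_⟩
      · rw [SetLike.mem_coe, mem_comap, hB]
        exact mem_map_of_mem _ (Subgroup.subset_normalClosure rfl)
      · intro s hs
        rw [SetLike.mem_coe, mem_comap]
        have h3 : QuotientGroup.mk' N s = 1 := (QuotientGroup.eq_one_iff s).mpr (by
          rw [hN]; exact Subgroup.subset_normalClosure hs)
        rw [h3]
        exact one_mem _
    have h3 : (B.comap (QuotientGroup.mk' N)).FiniteIndex := Subgroup.finiteIndex_of_le h2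
    have h4 : B.FiniteIndex := by
      refine ⟨?_⟩
      rw [← Subgroup.index_comap_of_surjective B (QuotientGroup.mk'_surjective N)]
      exact h3.index_ne_zero
    have h5 : Group.FG B := inferInstance
    let _ : CommGroup B :=
      { (inferInstance : Group B) with
        mul_comm := fun x y => by
          obtain ⟨x1, hx1, hx2⟩ := hB.le x.2
          obtain ⟨y1, hy1, hy2⟩ := hB.le y.2
          have h6 := normalClosure_comm a (hS a (Finset.mem_insert_self a S)) x1 hx1 y1 hy1
          apply Subtype.ext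
          show (x : H ⧸ N) * y = y * x
          rw [← hx2, ← hy2]
          exact h6.map (QuotientGroup.mk' N) }
    have h6 : Finite B := CommGroup.finite_of_fg_isMulTorsion _ (fun x =>
      isOfFinOrder_iff_pow_eq_one.mpr ⟨q, hq, Subtype.ext (by
        show (x : H ⧸ N) ^ q = 1
        obtain ⟨y, hy⟩ := QuotientGroup.mk'_surjective N (x : H ⧸ N)
        rw [← hy, ← map_pow, hx, map_one])⟩)
    have h7 : Finite ((H ⧸ N) ⧸ B) := Subgroup.finite_quotient_of_finiteIndex
    exact Finite.of_equiv _ (Subgroup.groupEquivQuotientProdSubgroup (s := B)).symm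

theorem step_fin {G : Type u} [Group G] {p k : ℕ} (hp : p.Prime) (hq : ∀ x : G, x ^ p ^ k = 1)
    (f : FreeGroup ℕ)
    (hcomm : ∀ g : ℕ → G, ∀ h : G, Commute (FreeGroup.lift g f) (h * FreeGroup.lift g f * h⁻¹))
    (hquot : ∀ (H : Subgroup G), ∀ R' : Subgroup H, ∀ _ : R'.Normal, R' = closure (Val {f} H) →
      LocNilp (H ⧸ R')) : LocNilp G := by
  intro H hH
  have hfg : Group.FG H := (Group.fg_iff_subgroup_fg H).mpr hH
  obtain ⟨R, hR⟩ : ∃ R : Subgroup H, R = closure (Val {f} H) := ⟨_, rfl⟩
  have hRn : R.Normal := by rw [hR]; exact val_normal _ H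
  have hx : ∀ x : H, x ^ p ^ k = 1 := fun x => Subtype.ext (by push_cast; exact hq _)
  have hQ : LocNilp (H ⧸ R) := hquot H R hRn hR
  have hQn : Group.IsNilpotent (H ⧸ R) :=
    Group.isNilpotent_top.mp (hQ ⊤ ((Group.fg_def).mp inferInstance))
  have hQf : Finite (H ⧸ R) := finite_of_fg_exp _ (pow_pos hp.pos k) (H ⧸ R) inferInstance (by
    intro x
    obtain ⟨x, rfl⟩ := QuotientGroup.mk'_surjective R x
    rw [← map_pow, hx, map_one])
  have h4 : R.FiniteIndex := Subgroup.finiteIndex_of_finite_quotient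
  have h5 : Group.FG R := inferInstance
  have h6 : (closure (Val {f} H)).FG := by
    rw [← hR]
    exact (Group.fg_iff_subgroup_fg R).mp h5
  obtain ⟨S, hS, hSR⟩ := fg_closure _ h6
  rw [← hR] at hSR
  have h7 : Subgroup.normalClosure (S : Set H) = R := by
    refine le_antisymm (Subgroup.normalClosure_le_normal ?_) ?_
    · rw [← hSR]; exact subset_closure
    · rw [← hSR]; exact Subgroup.closure_le_normalClosure
  have hf : Finite H := by
    refine fin_ind (p ^ k) (pow_pos hp.pos k) hx S ?_ (by rw [h7]; exact hQf)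
    intro s hs h
    obtain ⟨w, hw, g, hg⟩ := hS hs
    have hw' : w = f := hw
    rw [hw'] at hg
    have h8 := hcomm (fun i => (g i : G)) (h : G)
    have h9 : ((s : H) : G) = FreeGroup.lift (fun i => (g i : G)) f := by
      rw [hg]
      exact map_lift H.subtype g f
    rw [← h9] at h8
    exact Subtype.ext h8
  have : Fact p.Prime := ⟨hp⟩
  have h8 : IsPGroup p H := fun g => ⟨k, hx g⟩
  exact h8.isNilpotent

end Pool.Agent.LibFB69
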