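import Pool.Agent.LibFB69.Gru2

set_option autoImplicit false

/-!
# The laws saying that a verbal subgroup has class at most c, and the final assembly (helper file for MP_51ab1e_al)
-/

namespace Pool.Agent.LibFB69

open Subgroup commutatorElement

universe u

/-- Left-normed commutators of a sequence. -/
def cm {G : Type u} [Group G] (v : ℕ → G) : ℕ → G
  | 0 => v 0
  | i + 1 => ⁅cm v i, v (i + 1)⁆

theorem map_cm {G H : Type u} [Group G] [Group H] (φ : G →* H) (v : ℕ → G) (i : ℕ) :
    φ (cm v i) = cm (fun j => φ (v j)) i := by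
  induction i with
  | zero => rfl
  | succ i ih => rw [cm, cm, map_commutatorElement, ih]

theorem map_cm' {H : Type u} [Group H] (φ : FreeGroup ℕ →* H) (v : ℕ → FreeGroup ℕ) (i : ℕ) :
    φ (cm v i) = cm (fun j => φ (v j)) i := by
  induction i with
  | zero => rfl
  | succ i ih => rw [cm, cm, map_commutatorElement, ih]

theorem cm_congr {G : Type u} [Group G] (v v' : ℕ → G) (i : ℕ) (h : ∀ j ≤ i, v j = v' j) :
    cm v i = cm v' i := by
  induction i with
  | zero => exact h 0 le_rfl
  | succ i ih => rw [cm, cm, ih (fun j hj => h j (by omega)), h (i + 1) le_rfl]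

theorem cm_mem_lcs {G : Type u} [Group G] (N : Subgroup G) (v : ℕ → G) (hv : ∀ j, v j ∈ N) (i : ℕ) :
    cm v i ∈ N.lowerCentralSeries i := by
  induction i with
  | zero => exact hv 0
  | succ i ih => exact commutator_mem_commutator ih (hv (i + 1))

/-- The word `w` written in the letters of the `j`-th block. -/
def ren (j : ℕ) (w : FreeGroup ℕ) : FreeGroup ℕ :=
  FreeGroup.lift (fun i => FreeGroup.of (Nat.pair j i)) w

/-- The words `[w 0, w 1, ..., w c]` in disjoint letters. -/
def laws (W : Set (FreeGroup ℕ)) (c : ℕ) : Set (FreeGroup ℕ) :=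
  {l | ∃ w : ℕ → FreeGroup ℕ, (∀ j, w j ∈ W) ∧ l = cm (fun j => ren j (w j)) c}

theorem laws_finite (W : Set (FreeGroup ℕ)) (hW : W.Finite) (c : ℕ) : (laws W c).Finite := by
  induction c with
  | zero =>
    refine (hW.image (ren 0)).subset ?_
    rintro _ ⟨w, hw, rfl⟩
    exact ⟨w 0, hw 0, rfl⟩
  | succ c ih =>
    refine (Set.Finite.image2 (fun l w => ⁅l, ren (c + 1) w⁆) ih hW).subset ?_
    rintro _ ⟨w, hw, rfl⟩
    exact ⟨_, ⟨w, hw, rfl⟩, w (c + 1), hw (c + 1), rfl⟩

/-- The values in `G` of the words of `W`. -/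
def Val (W : Set (FreeGroup ℕ)) (G : Type u) [Group G] : Set G :=
  {x | ∃ w ∈ W, ∃ f : ℕ → G, x = FreeGroup.lift f w}

theorem sat_laws (W : Set (FreeGroup ℕ)) (c : ℕ) (G : Type u) [Group G] :
    (∀ l ∈ laws W c, Sat G l) ↔ ∀ v : ℕ → G, (∀ j, v j ∈ Val W G) → cm v c = 1 := by
  have key : ∀ (f : ℕ → G) (w : ℕ → FreeGroup ℕ), FreeGroup.lift f (cm (fun j => ren j (w j)) c) =
      cm (fun j => FreeGroup.lift (fun i => f (Nat.pair j i)) (w j)) c := by
    intro f w
    rw [map_cm']
    congr 1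
    funext j
    rw [ren, lift_lift]
    simp
  constructor
  · intro h v hv
    choose w hw f hf using hv
    have h1 := h _ ⟨w, hw, rfl⟩ (fun n => f (Nat.unpair n).1 (Nat.unpair n).2)
    rw [key] at h1
    simp only [Nat.unpair_pair] at h1
    have h2 : v = fun j => FreeGroup.lift (fun i => f j i) (w j) := funext hf
    rw [h2]
    exact h1
  · rintro h _ ⟨w, hw, rfl⟩ f
    rw [key]
    exact h _ fun j => ⟨w j, hw j, _, rfl⟩

theorem comm_closure {G : Type u} [Group G] (A B : Set G) (hA : ∀ a ∈ A, ∀ g : G, g * a * g⁻¹ ∈ A)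
    (hB : ∀ b ∈ B, ∀ g : G, g * b * g⁻¹ ∈ B) :
    ⁅closure A, closure B⁆ ≤ closure {x | ∃ a ∈ A, ∃ b ∈ B, x = ⁅a, b⁆} := by
  obtain ⟨S, hS⟩ : ∃ S, S = {x | ∃ a ∈ A, ∃ b ∈ B, x = ⁅a, b⁆} := ⟨_, rfl⟩
  rw [← hS]
  have h0 : Group.conjugatesOfSet S ⊆ S := by
    intro x hx
    obtain ⟨s, hs, hsx⟩ := Group.mem_conjugatesOfSet_iff.mp hx
    obtain ⟨g, rfl⟩ := isConj_iff.mp hsx
    rw [hS] at hs ⊢
    obtain ⟨a, ha, b, hb, rfl⟩ := hs
    refine ⟨_, hA a ha g, _, hB b hb g, ?_⟩
    simp only [commutatorElement_def]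
    group
  refine le_trans ?_ (closure_mono h0)
  obtain ⟨D, hD⟩ : ∃ D, D = Subgroup.normalClosure S := ⟨_, rfl⟩
  have hDn : D.Normal := by rw [hD]; infer_instance
  have hmem : ∀ a ∈ A, ∀ b ∈ B, ⁅a, b⁆ ∈ D := by
    intro a ha b hb
    rw [hD]
    exact Subgroup.subset_normalClosure (by rw [hS]; exact ⟨a, ha, b, hb, rfl⟩)
  have h1 : ∀ b ∈ B, ∀ x ∈ closure A, Commute (QuotientGroup.mk' D x) (QuotientGroup.mk' D b) := by
    intro b hb x hx
    have h2 : closure A ≤ (Subgroup.centralizer {QuotientGroup.mk' D b}).comap (QuotientGroup.mk' D) := by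
      rw [closure_le]
      intro a ha
      rw [SetLike.mem_coe, mem_comap, mem_centralizer_singleton_iff]
      have h3 : QuotientGroup.mk' D ⁅a, b⁆ = 1 := (QuotientGroup.eq_one_iff _).mpr (hmem a ha b hb)
      rw [map_commutatorElement, commutatorElement_eq_one_iff_mul_comm] at h3
      exact h3
    exact mem_centralizer_singleton_iff.mp (h2 hx)
  have h2 : ∀ x ∈ closure A, ∀ y ∈ closure B,
      Commute (QuotientGroup.mk' D x) (QuotientGroup.mk' D y) := by
    intro x hx y hy
    have h2 : closure B ≤ (Subgroup.centralizer {QuotientGroup.mk' D x}).comap (QuotientGroup.mk' D) := by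
      rw [closure_le]
      intro b hb
      rw [SetLike.mem_coe, mem_comap, mem_centralizer_singleton_iff]
      exact (h1 b hb x hx).symm
    exact (mem_centralizer_singleton_iff.mp (h2 hy)).symm
  show _ ≤ Subgroup.normalClosure S
  rw [← hD, commutator_le]
  intro x hx y hy
  have h3 := h2 x hx y hy
  rw [← commutatorElement_eq_one_iff_commute, ← map_commutatorElement] at h3
  exact (QuotientGroup.eq_one_iff _).mp h3

theorem val_conj (W : Set (FreeGroup ℕ)) (G : Type u) [Group G] :
    ∀ a ∈ Val W G, ∀ g : G, g * a * g⁻¹ ∈ Val W G := by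
  rintro _ ⟨w, hw, f, rfl⟩ g
  refine ⟨w, hw, fun i => g * f i * g⁻¹, ?_⟩
  exact map_lift (MulAut.conj g).toMonoidHom f w

theorem closure_lcs (W : Set (FreeGroup ℕ)) (G : Type u) [Group G] (i : ℕ) :
    (closure (Val W G)).lowerCentralSeries i ≤
      closure {x | ∃ v : ℕ → G, (∀ j, v j ∈ Val W G) ∧ x = cm v i} := by
  induction i with
  | zero =>
    refine closure_mono ?_
    intro x hx
    exact ⟨fun _ => x, fun _ => hx, rfl⟩
  | succ i ih =>
    rw [Subgroup.lowerCentralSeries_succ]
    refine (Subgroup.commutator_mono ih le_rfl).trans ((comm_closure _ _ ?_ (val_conj W G)).trans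
      (closure_mono ?_))
    · rintro _ ⟨v, hv, rfl⟩ g
      exact ⟨fun j => g * v j * g⁻¹, fun j => val_conj W G _ (hv j) g,
        map_cm (MulAut.conj g).toMonoidHom v i⟩
    · rintro _ ⟨_, ⟨v, hv, rfl⟩, b, hb, rfl⟩
      refine ⟨fun j => if j ≤ i then v j else b, fun j => ?_, ?_⟩
      · dsimp only
        split_ifs
        · exact hv j
        · exact hb
      · have h1 := cm_congr v (fun j => if j ≤ i then v j else b) i (fun j hj => (if_pos hj).symm)
        rw [cm, ← h1, if_neg (by omega)]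

theorem sat_eng (G : Type u) [Group G] (k : ℕ) :
    Sat G (eng (FreeGroup.of 1) k (FreeGroup.of 0)) ↔ ∀ x y : G, eng y k x = 1 := by
  have key : ∀ f : ℕ → G, FreeGroup.lift f (eng (FreeGroup.of 1) k (FreeGroup.of 0)) =
      eng (f 1) k (f 0) := by
    intro f
    induction k with
    | zero => rw [eng_zero, eng_zero, FreeGroup.lift_apply_of]
    | succ k ih => rw [eng_succ, eng_succ, map_commutatorElement, ih, FreeGroup.lift_apply_of]
  constructor
  · intro h x y
    have h1 := h (fun i => if i = 1 then y else x)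
    rw [key] at h1
    simpa using h1
  · intro h f
    rw [key, h]

theorem val_normal (W : Set (FreeGroup ℕ)) (H : Type u) [Group H] : (closure (Val W H)).Normal := by
  have h4 : Group.conjugatesOfSet (Val W H) = Val W H := by
    refine Set.Subset.antisymm ?_ Group.subset_conjugatesOfSet
    intro x hx
    obtain ⟨s, hs, hsx⟩ := Group.mem_conjugatesOfSet_iff.mp hx
    obtain ⟨g, rfl⟩ := isConj_iff.mp hsx
    exact val_conj _ H s hs g
  have h5 : closure (Val W H) = Subgroup.normalClosure (Val W H) := by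
    rw [Subgroup.normalClosure, h4]
  rw [h5]
  infer_instance

theorem sat_quot (W : Set (FreeGroup ℕ)) (H : Type u) [Group H] (R : Subgroup H) [R.Normal]
    (hR : R = closure (Val W H)) : ∀ w ∈ W, Sat (H ⧸ R) w := by
  intro w hw f
  choose g hg using fun i => QuotientGroup.mk'_surjective R (f i)
  have h4 : f = fun i => QuotientGroup.mk' R (g i) := funext fun i => (hg i).symm
  rw [h4, ← map_lift]
  exact (QuotientGroup.eq_one_iff _).mpr (by rw [hR]; exact subset_closure ⟨w, hw, g, rfl⟩)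

theorem bar_fb {V : (G : Type u) → [Group G] → Prop} (hV : FinBased V) {c e : ℕ} (he : 0 < e)
    (hGB : GB V c e) (hP : FinBased (Part V e)) : FinBased (Bar V) := by
  classical
  obtain ⟨k, hk⟩ := bar_engel hV he hGB hP
  obtain ⟨W, hW⟩ := hP
  obtain ⟨U, hU⟩ := id hV
  have hfin := laws_finite (W : Set (FreeGroup ℕ)) W.finite_toSet c
  refine ⟨U ∪ {eng (FreeGroup.of 1) k (FreeGroup.of 0)} ∪ hfin.toFinset, fun G _ => ?_⟩
  constructor
  · rintro ⟨h1, h2⟩ w hw
    simp only [Finset.mem_union, Finset.mem_singleton, Set.Finite.mem_toFinset] at hw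
    rcases hw with (hw | rfl) | hw
    · exact (hU G).mp h1 w hw
    · exact (sat_eng G k).mpr (hk G h1 h2)
    · refine (sat_laws _ c G).mpr ?_ w hw
      intro v hv
      obtain ⟨⟨N, hN, hNc, hNl, hNe⟩, _⟩ := hGB G h1 h2
      have h3 := (hW (G ⧸ N)).mp ⟨hV.quot h1 N, hNl, hNe⟩
      have h4 : ∀ j, v j ∈ N := by
        intro j
        obtain ⟨w, hw, f, hf⟩ := hv j
        rw [hf, ← QuotientGroup.eq_one_iff]
        have h5 := map_lift (QuotientGroup.mk' N) f w
        rw [h3 w hw] at h5
        exact h5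
      have h5 := cm_mem_lcs N v h4 c
      rw [hNc, mem_bot] at h5
      exact h5
  · intro h
    simp only [Finset.mem_union, Finset.mem_singleton, Set.Finite.mem_toFinset] at h
    have h1 : V G := (hU G).mpr fun w hw => h w (Or.inl (Or.inl hw))
    refine ⟨h1, ?_⟩
    intro H hH
    have hfg : Group.FG H := (Group.fg_iff_subgroup_fg H).mpr hH
    have h2 : ∀ x y : H, eng y k x = 1 :=
      (sat_eng H k).mp (Sat.of_injective H.subtype H.subtype_injective (h _ (Or.inl (Or.inr rfl))))
    have h3 : ∀ v : ℕ → H, (∀ j, v j ∈ Val (W : Set (FreeGroup ℕ)) H) → cm v c = 1 :=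
      (sat_laws _ c H).mp fun l hl =>
        Sat.of_injective H.subtype H.subtype_injective (h l (Or.inr hl))
    obtain ⟨R, hR⟩ : ∃ R : Subgroup H, R = closure (Val (W : Set (FreeGroup ℕ)) H) := ⟨_, rfl⟩
    have hRn : R.Normal := by rw [hR]; exact val_normal _ H
    have hRc : R.lowerCentralSeries c = ⊥ := by
      rw [eq_bot_iff, hR]
      refine (closure_lcs _ H c).trans ?_
      rw [closure_le]
      rintro _ ⟨v, hv, rfl⟩
      exact h3 v hv
    have hQ : Part V e (H ⧸ R) := by
      rw [hW]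
      exact sat_quot _ H R hR
    have hQn : Group.IsNilpotent (H ⧸ R) := by
      have h4 := hQ.2.1 ⊤ ((Group.fg_def).mp inferInstance)
      exact Group.isNilpotent_top.mp h4
    have hQf : Finite (H ⧸ R) := finite_of_fg_exp e he (H ⧸ R) inferInstance hQ.2.2
    refine gruenberg k (H ⧸ R) c H (QuotientGroup.mk' R) (QuotientGroup.mk'_surjective R) ?_ h2
    rw [QuotientGroup.ker_mk']
    exact hRc

end Pool.Agent.LibFB69
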