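import Pool.Agent.LibFB69.Basic

set_option autoImplicit false

/-!
# Reduction of finite bases to the prime power parts (helper file for MP_51ab1e_al)
-/

namespace Pool.Agent.LibFB69

open Subgroup commutatorElement

universe u

theorem lift_lift {G : Type u} [Group G] (f : ℕ → G) (g : ℕ → FreeGroup ℕ) (w : FreeGroup ℕ) :
    FreeGroup.lift f (FreeGroup.lift g w) = FreeGroup.lift (fun i => FreeGroup.lift f (g i)) w := by
  have h : (FreeGroup.lift f).comp (FreeGroup.lift g) =
      FreeGroup.lift (fun i => FreeGroup.lift f (g i)) := by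
    ext i
    simp
  rw [← h]; rfl

theorem sat_pow {G : Type u} [Group G] (a : ℕ) :
    Sat G ((FreeGroup.of 0) ^ a) ↔ ∀ x : G, x ^ a = 1 := by
  constructor
  · intro h x
    have := h (fun _ => x)
    simpa using this
  · intro h f
    simpa using h (f 0)

theorem sat_comm {G : Type u} [Group G] (a b : ℕ) :
    Sat G (⁅(FreeGroup.of 0) ^ b, (FreeGroup.of 1) ^ a⁆) ↔ ∀ x y : G, Commute (x ^ b) (y ^ a) := by
  constructor
  · intro h x y
    have := h (fun i => if i = 0 then x else y)
    rw [map_commutatorElement, map_pow, map_pow, FreeGroup.lift_apply_of, FreeGroup.lift_apply_of] at this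
    simpa [commutatorElement_eq_one_iff_commute] using this
  · intro h f
    rw [map_commutatorElement, map_pow, map_pow, FreeGroup.lift_apply_of, FreeGroup.lift_apply_of]
    exact commutatorElement_eq_one_iff_commute.mpr (h _ _)

/-- The word `w` with every letter replaced by its `b`-th power. -/
def sub (b : ℕ) (w : FreeGroup ℕ) : FreeGroup ℕ := FreeGroup.lift (fun i => (FreeGroup.of i) ^ b) w

theorem sat_sub {G : Type u} [Group G] (b : ℕ) (w : FreeGroup ℕ) :
    Sat G (sub b w) ↔ ∀ f : ℕ → G, FreeGroup.lift (fun i => (f i) ^ b) w = 1 := by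
  refine forall_congr' fun f => ?_
  rw [sub, lift_lift]
  simp

theorem FinBased.left {V : (G : Type u) → [Group G] → Prop} {a b : ℕ}
    (h : FinBased (Part V (a * b))) : FinBased (Part V a) := by
  classical
  obtain ⟨W, hW⟩ := h
  refine ⟨insert ((FreeGroup.of 0) ^ a) W, fun G _ => ?_⟩
  rw [Finset.forall_mem_insert, sat_pow, ← hW]
  constructor
  · rintro ⟨h1, h2, h3⟩
    exact ⟨h3, h1, h2, fun x => by rw [pow_mul, h3, one_pow]⟩
  · rintro ⟨h3, h1, h2, _⟩
    exact ⟨h1, h2, h3⟩

theorem forward {V : (G : Type u) → [Group G] → Prop} (hV : FinBased V) {a b : ℕ} (hab : a.Coprime b)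
    {W : Finset (FreeGroup ℕ)} (hW : ∀ (G : Type u) [Group G], Part V a G ↔ ∀ w ∈ W, Sat G w)
    (G : Type u) [Group G] (hG : Part V (a * b) G) :
    ∀ w ∈ W, ∀ f : ℕ → G, FreeGroup.lift (fun i => (f i) ^ b) w = 1 := by
  intro w hw f
  obtain ⟨h1, h2, h3⟩ := hG
  obtain ⟨P, hP⟩ : ∃ P : Subgroup G, ∀ x, x ∈ P ↔ x ^ a = 1 :=
    ⟨{ carrier := {x | x ^ a = 1}
       mul_mem' := fun {x y} hx hy => mul_pow_eq_one h2 hab h3 hx hy
       one_mem' := one_pow a
       inv_mem' := fun {x} hx => by
        have hx' : x ^ a = 1 := hx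
        show x⁻¹ ^ a = 1
        rw [inv_pow, hx', inv_one] }, fun x => Iff.rfl⟩
  have hVP : V P := by
    obtain ⟨U, hU⟩ := hV
    rw [hU]
    intro u hu
    exact Sat.of_injective P.subtype P.subtype_injective ((hU G).mp h1 u hu)
  have h4 : Part V a P := ⟨hVP, h2.subgroup P, fun x => Subtype.ext (by push_cast; exact (hP x).mp x.2)⟩
  have h5 := (hW P).mp h4 w hw (fun i => ⟨(f i) ^ b, (hP _).mpr (by rw [← pow_mul, mul_comm b a, h3])⟩)
  have h6 := congrArg P.subtype h5
  rw [map_lift, map_one] at h6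
  exact h6

theorem backward {V : (G : Type u) → [Group G] → Prop} {a b : ℕ} (hab : a.Coprime b)
    {W : Finset (FreeGroup ℕ)} (hW : ∀ (G : Type u) [Group G], Part V a G ↔ ∀ w ∈ W, Sat G w)
    (G : Type u) [Group G] (hc : ∀ x y : G, Commute (x ^ b) (y ^ a))
    (hw : ∀ w ∈ W, ∀ f : ℕ → G, FreeGroup.lift (fun i => (f i) ^ b) w = 1) (K : Subgroup G)
    (hKA : K ≤ Subgroup.closure (Set.range fun x : G => x ^ b)) (hK : K.FG) : Group.IsNilpotent K := by
  obtain ⟨A, hA⟩ : ∃ A, A = Subgroup.closure (Set.range fun x : G => x ^ b) := ⟨_, rfl⟩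
  rw [← hA] at hKA
  have hcA : ∀ s ∈ A, ∀ y : G, Commute s (y ^ a) := by
    intro s hs y
    have h1 : A ≤ Subgroup.centralizer {y ^ a} := by
      rw [hA, Subgroup.closure_le]
      rintro _ ⟨x, rfl⟩
      rw [SetLike.mem_coe, Subgroup.mem_centralizer_singleton_iff]
      exact hc x y
    exact (Subgroup.mem_centralizer_singleton_iff.mp (h1 hs))
  obtain ⟨u, v, huv⟩ : IsCoprime (a : ℤ) (b : ℤ) := Nat.isCoprime_iff_coprime.mpr hab
  have hsplit : ∀ t : A, t = ((t ^ v) ^ b) * ((t ^ u) ^ a) := by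
    intro t
    rw [← zpow_natCast, ← zpow_natCast, ← zpow_mul, ← zpow_mul, ← zpow_add, add_comm, huv, zpow_one]
  have hcen : ∀ t : A, (t ^ u) ^ a ∈ Subgroup.center A := by
    intro t
    rw [Subgroup.mem_center_iff]
    intro g
    apply Subtype.ext
    push_cast
    exact hcA g g.2 _
  have hmk : ∀ t : A, (QuotientGroup.mk t : A ⧸ Subgroup.center A) = QuotientGroup.mk ((t ^ v) ^ b) := by
    intro t
    rw [QuotientGroup.eq]
    have h1 : t⁻¹ * (t ^ v) ^ b = ((t ^ u) ^ a)⁻¹ := by
      have h2 := hsplit t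
      have h3 : (t ^ v) ^ b = t * ((t ^ u) ^ a)⁻¹ := eq_mul_inv_of_mul_eq h2.symm
      rw [h3]; group
    rw [h1]
    exact inv_mem (hcen t)
  have hQ : ∀ w ∈ W, Sat (A ⧸ Subgroup.center A) w := by
    intro w hww f
    choose t ht using fun i => QuotientGroup.mk_surjective (f i)
    have h1 : f = fun i => (QuotientGroup.mk' (Subgroup.center A)) ((t i ^ v) ^ b) := by
      funext i
      rw [← ht i, hmk]; rfl
    rw [h1, ← map_lift]
    have h2 : FreeGroup.lift (fun i => (t i ^ v) ^ b) w = 1 := by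
      apply A.subtype_injective
      rw [map_lift, map_one]
      have h3 := hw w hww (fun i => ((t i ^ v : A) : G))
      simpa using h3
    rw [h2, map_one]
  have hLN : LocNilp (A ⧸ Subgroup.center A) := ((hW _).mpr hQ).2.1
  obtain ⟨φ, hφ⟩ : ∃ φ : K →* A ⧸ Subgroup.center A,
      φ = (QuotientGroup.mk' (Subgroup.center A)).comp (Subgroup.inclusion hKA) := ⟨_, rfl⟩
  have hKfg : Group.FG K := (Group.fg_iff_subgroup_fg K).mpr hK
  have h1 : φ.range.FG := (Group.fg_iff_subgroup_fg φ.range).mp inferInstance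
  have h2 : Group.IsNilpotent φ.range := hLN _ h1
  refine Subgroup.isNilpotent_of_ker_le_center φ.rangeRestrict ?_
  intro x hx
  rw [MonoidHom.ker_rangeRestrict, MonoidHom.mem_ker, hφ, MonoidHom.comp_apply, QuotientGroup.mk'_apply,
    QuotientGroup.eq_one_iff, Subgroup.mem_center_iff] at hx
  rw [Subgroup.mem_center_iff]
  intro g
  have h3 := congrArg A.subtype (hx (Subgroup.inclusion hKA g))
  exact Subtype.ext (by simpa using h3)

theorem FinBased.mul {V : (G : Type u) → [Group G] → Prop} (hV : FinBased V) {a b : ℕ}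
    (hab : a.Coprime b) (ha : FinBased (Part V a)) (hb : FinBased (Part V b)) :
    FinBased (Part V (a * b)) := by
  classical
  obtain ⟨Wa, hWa⟩ := ha
  obtain ⟨Wb, hWb⟩ := hb
  obtain ⟨U, hU⟩ := id hV
  refine ⟨U ∪ {(FreeGroup.of 0) ^ (a * b)} ∪ {⁅(FreeGroup.of 0) ^ b, (FreeGroup.of 1) ^ a⁆} ∪
    Wa.image (sub b) ∪ Wb.image (sub a), fun G _ => ?_⟩
  constructor
  · intro hG w hw
    simp only [Finset.mem_union, Finset.mem_singleton, Finset.mem_image] at hw
    rcases hw with (((hw | rfl) | rfl) | ⟨w, hw, rfl⟩) | ⟨w, hw, rfl⟩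
    · exact (hU G).mp hG.1 w hw
    · exact (sat_pow _).mpr hG.2.2
    · rw [sat_comm]
      intro x y
      refine commute_coprime hG.2.1 hab ?_ ?_
      · rw [← pow_mul, mul_comm b a, hG.2.2]
      · rw [← pow_mul, hG.2.2]
    · rw [sat_sub]
      exact forward hV hab hWa G hG w hw
    · rw [sat_sub]
      exact forward hV hab.symm hWb G ⟨hG.1, hG.2.1, fun x => by rw [mul_comm b a]; exact hG.2.2 x⟩ w hw
  · intro hG
    simp only [Finset.mem_union, Finset.mem_singleton, Finset.mem_image] at hG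
    have h1 : V G := (hU G).mpr fun w hw => hG w (Or.inl (Or.inl (Or.inl (Or.inl hw))))
    have h2 : ∀ x : G, x ^ (a * b) = 1 :=
      (sat_pow _).mp (hG _ (Or.inl (Or.inl (Or.inl (Or.inr rfl)))))
    have hc : ∀ x y : G, Commute (x ^ b) (y ^ a) :=
      (sat_comm a b).mp (hG _ (Or.inl (Or.inl (Or.inr rfl))))
    have hwa : ∀ w ∈ Wa, ∀ f : ℕ → G, FreeGroup.lift (fun i => (f i) ^ b) w = 1 := fun w hw =>
      (sat_sub b w).mp (hG _ (Or.inl (Or.inr ⟨w, hw, rfl⟩)))
    have hwb : ∀ w ∈ Wb, ∀ f : ℕ → G, FreeGroup.lift (fun i => (f i) ^ a) w = 1 := fun w hw =>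
      (sat_sub a w).mp (hG _ (Or.inr ⟨w, hw, rfl⟩))
    refine ⟨h1, ?_, h2⟩
    intro H hH
    obtain ⟨u, v, huv⟩ : IsCoprime (a : ℤ) (b : ℤ) := Nat.isCoprime_iff_coprime.mpr hab
    have hsplit : ∀ t : G, t = ((t ^ v) ^ b) * ((t ^ u) ^ a) := by
      intro t
      rw [← zpow_natCast, ← zpow_natCast, ← zpow_mul, ← zpow_mul, ← zpow_add, add_comm, huv, zpow_one]
    obtain ⟨F, hF⟩ := hH
    obtain ⟨KA, hKA⟩ : ∃ KA, KA = Subgroup.closure ((F.image fun x => (x ^ v) ^ b : Finset G) : Set G) :=
      ⟨_, rfl⟩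
    obtain ⟨KB, hKB⟩ : ∃ KB, KB = Subgroup.closure ((F.image fun x => (x ^ u) ^ a : Finset G) : Set G) :=
      ⟨_, rfl⟩
    have hKA1 : KA ≤ Subgroup.closure (Set.range fun x : G => x ^ b) := by
      rw [hKA]
      apply Subgroup.closure_mono
      intro x hx
      simp only [Finset.coe_image, Set.mem_image] at hx
      obtain ⟨y, _, rfl⟩ := hx
      exact ⟨y ^ v, rfl⟩
    have hKB1 : KB ≤ Subgroup.closure (Set.range fun x : G => x ^ a) := by
      rw [hKB]
      apply Subgroup.closure_mono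
      intro x hx
      simp only [Finset.coe_image, Set.mem_image] at hx
      obtain ⟨y, _, rfl⟩ := hx
      exact ⟨y ^ u, rfl⟩
    have hA : Group.IsNilpotent KA := backward hab hWa G hc hwa KA hKA1 ⟨_, hKA.symm⟩
    have hB : Group.IsNilpotent KB :=
      backward hab.symm hWb G (fun x y => (hc y x).symm) hwb KB hKB1 ⟨_, hKB.symm⟩
    have hcomm : ∀ (x : KA) (y : KB), Commute (KA.subtype x) (KB.subtype y) := by
      have h3 : ∀ y : G, KA ≤ Subgroup.centralizer {y ^ a} := by
        intro y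
        refine hKA1.trans ?_
        rw [Subgroup.closure_le]
        rintro _ ⟨x, rfl⟩
        rw [SetLike.mem_coe, Subgroup.mem_centralizer_singleton_iff]
        exact hc x y
      intro x y
      have h4 : KB ≤ Subgroup.centralizer {(x : G)} := by
        refine hKB1.trans ?_
        rw [Subgroup.closure_le]
        rintro _ ⟨z, rfl⟩
        rw [SetLike.mem_coe, Subgroup.mem_centralizer_singleton_iff]
        exact (Subgroup.mem_centralizer_singleton_iff.mp (h3 z x.2)).symm
      exact (Subgroup.mem_centralizer_singleton_iff.mp (h4 y.2)).symm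
    obtain ⟨φ, hφ⟩ : ∃ φ : KA × KB →* G, φ = MonoidHom.noncommCoprod KA.subtype KB.subtype hcomm := ⟨_, rfl⟩
    have h5 : Group.IsNilpotent φ.range :=
      Group.nilpotent_of_surjective φ.rangeRestrict φ.rangeRestrict_surjective
    have h6 : H ≤ φ.range := by
      rw [← hF, Subgroup.closure_le]
      intro x hx
      have hx1 : (x ^ v) ^ b ∈ KA := by
        rw [hKA]
        exact Subgroup.subset_closure (by simp only [Finset.coe_image]; exact ⟨x, hx, rfl⟩)
      have hx2 : (x ^ u) ^ a ∈ KB := by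
        rw [hKB]
        exact Subgroup.subset_closure (by simp only [Finset.coe_image]; exact ⟨x, hx, rfl⟩)
      refine ⟨(⟨_, hx1⟩, ⟨_, hx2⟩), ?_⟩
      rw [hφ, MonoidHom.noncommCoprod_apply]
      exact (hsplit x).symm
    exact Group.nilpotent_of_mulEquiv (Subgroup.subgroupOfEquivOfLe h6)

theorem FinBased.one {V : (G : Type u) → [Group G] → Prop} (hV : FinBased V) :
    FinBased (Part V 1) := by
  classical
  obtain ⟨U, hU⟩ := hV
  refine ⟨insert ((FreeGroup.of 0) ^ 1) U, fun G _ => ?_⟩
  rw [Finset.forall_mem_insert, sat_pow, ← hU]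
  constructor
  · rintro ⟨h1, _, h3⟩
    exact ⟨h3, h1⟩
  · rintro ⟨h3, h1⟩
    have : Subsingleton G := ⟨fun x y => by
      have hx := h3 x
      have hy := h3 y
      rw [pow_one] at hx hy
      rw [hx, hy]⟩
    exact ⟨h1, fun H _ => inferInstance, h3⟩

theorem main {V : (G : Type u) → [Group G] → Prop} (hV : FinBased V) (n : ℕ) (hn : 0 < n) :
    FinBased (Part V n) ↔ ∀ p ∈ n.primeFactors, FinBased (Part V (p ^ n.factorization p)) := by
  constructor
  · intro h p _
    have h1 : p ^ n.factorization p * (n / p ^ n.factorization p) = n := Nat.ordProj_mul_ordCompl_eq_self n p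
    rw [← h1] at h
    exact h.left
  · induction n using Nat.recOnPosPrimePosCoprime with
    | prime_pow p k hp hk =>
      intro h
      have h1 : p ∈ (p ^ k).primeFactors := by
        rw [Nat.primeFactors_prime_pow hk.ne' hp]; simp
      have h2 := h p h1
      rw [hp.factorization_pow, Finsupp.single_eq_same] at h2
      exact h2
    | zero => omega
    | one =>
      intro _
      exact FinBased.one hV
    | coprime a b ha hb hab iha ihb =>
      intro h
      have hb0 : 0 < b := by omega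
      have ha0 : 0 < a := by omega
      refine FinBased.mul hV hab (iha ha0 fun p hp => ?_) (ihb hb0 fun p hp => ?_)
      · have h1 := h p (by rw [hab.primeFactors_mul]; exact Finset.mem_union_left _ hp)
        rw [Nat.factorization_eq_of_coprime_left hab
          (Nat.mem_primeFactors_iff_mem_primeFactorsList.mp hp)] at h1
        exact h1
      · have h1 := h p (by rw [hab.primeFactors_mul]; exact Finset.mem_union_right _ hp)
        rw [Nat.factorization_eq_of_coprime_right hab
          (Nat.mem_primeFactors_iff_mem_primeFactorsList.mp hp)] at h1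
        exact h1

end Pool.Agent.LibFB69
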