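import Pool.Agent.LibFB69.Laws

set_option autoImplicit false

/-!
# Groups of exponent 3 and 4 are locally nilpotent (helper file for MP_51ab1e_al)
-/

namespace Pool.Agent.LibFB69

open Subgroup commutatorElement

universe u

/-- The product `h * x * a₁ * x * a₂ * ⋯ * x * aₙ`. -/
def vl {G : Type u} [Group G] (H : Subgroup G) (x : G) : H → List H → G
  | h, [] => h
  | h, a :: t => h * x * vl H x a t

theorem vl_mul {G : Type u} [Group G] (H : Subgroup G) (x : G) (g h : H) (t : List H) :
    vl H x (g * h) t = g * vl H x h t := by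
  cases t with
  | nil => rfl
  | cons a t => simp only [vl, Subgroup.coe_mul, mul_assoc]

theorem fin_step {G : Type u} [Group G] (H : Subgroup G) [Finite H] (x : G) (N m : ℕ)
    (hx : x ^ (m + 1) = 1)
    (hred : ∀ (h : H) (t : List H), N < t.length →
      ∃ (h' : H) (t' : List H), t'.length < t.length ∧ vl H x h' t' = vl H x h t) :
    Finite (closure ((H : Set G) ∪ {x})) := by
  have h1 : ∀ y ∈ closure ((H : Set G) ∪ {x}), ∃ (h : H) (t : List H), y = vl H x h t := by
    have hxm : ∀ y : G, (∃ (h : H) (t : List H), y = vl H x h t) →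
        (∃ (h : H) (t : List H), x * y = vl H x h t) := by
      rintro y ⟨h, t, rfl⟩
      exact ⟨1, h :: t, by simp [vl]⟩
    have hxn : ∀ n : ℕ, ∀ y : G, (∃ (h : H) (t : List H), y = vl H x h t) →
        (∃ (h : H) (t : List H), x ^ n * y = vl H x h t) := by
      intro n
      induction n with
      | zero => intro y hy; simpa using hy
      | succ n ih => intro y hy; rw [pow_succ, mul_assoc]; exact ih _ (hxm y hy)
    have hh : ∀ g ∈ H, ∀ y : G, (∃ (h : H) (t : List H), y = vl H x h t) →
        (∃ (h : H) (t : List H), g * y = vl H x h t) := by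
      rintro g hg y ⟨h, t, rfl⟩
      exact ⟨⟨g, hg⟩ * h, t, (vl_mul H x ⟨g, hg⟩ h t).symm⟩
    intro y hy
    induction hy using Subgroup.closure_induction_left with
    | one => exact ⟨1, [], rfl⟩
    | mul_left s hs y _ ih =>
      rcases hs with hs | rfl
      · exact hh s hs y ih
      · exact hxm y ih
    | inv_mul_cancel s hs y _ ih =>
      rcases hs with hs | rfl
      · exact hh _ (inv_mem hs) y ih
      · have h2 : s⁻¹ = s ^ m := by
          rw [inv_eq_iff_mul_eq_one, ← pow_succ', hx]
        rw [h2]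
        exact hxn m y ih
  have h2 : ∀ n : ℕ, ∀ (h : H) (t : List H), t.length ≤ n →
      ∃ (h' : H) (t' : List H), t'.length ≤ N ∧ vl H x h' t' = vl H x h t := by
    intro n
    induction n with
    | zero => intro h t ht; exact ⟨h, t, by omega, rfl⟩
    | succ n ih =>
      intro h t ht
      rcases Nat.lt_or_ge N t.length with hN | hN
      · obtain ⟨h', t', hlt, he⟩ := hred h t hN
        obtain ⟨h2, t2, hlt2, he2⟩ := ih h' t' (by omega)
        exact ⟨h2, t2, hlt2, he2.trans he⟩
      · exact ⟨h, t, hN, rfl⟩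
  have h3 : ((closure ((H : Set G) ∪ {x}) : Subgroup G) : Set G).Finite := by
    have h4 : ((Set.univ : Set H) ×ˢ {l : List H | l.length ≤ N}).Finite :=
      Set.finite_univ.prod (List.finite_length_le H N)
    refine (h4.image (fun p => vl H x p.1 p.2)).subset ?_
    intro y hy
    obtain ⟨h, t, rfl⟩ := h1 y hy
    obtain ⟨h', t', hl, he⟩ := h2 _ h t le_rfl
    exact ⟨(h', t'), ⟨trivial, hl⟩, he⟩
  exact h3.to_subtype

theorem red_three {G : Type u} [Group G] (hG : ∀ g : G, g ^ 3 = 1) (H : Subgroup G) (x : G)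
    (h : H) (t : List H) (ht : 3 < t.length) :
    ∃ (h' : H) (t' : List H), t'.length < t.length ∧ vl H x h' t' = vl H x h t := by
  have key : ∀ y g : G, y * g * y = g⁻¹ * y⁻¹ * g⁻¹ := by
    intro y g
    have h1 := hG (y * g)
    rw [pow_succ, pow_two] at h1
    calc y * g * y = (y * g * (y * g) * (y * g)) * (g⁻¹ * y⁻¹ * g⁻¹) := by group
      _ = _ := by rw [h1, one_mul]
  match t, ht with
  | b1 :: b2 :: b3 :: b4 :: t', _ =>
    refine ⟨h * b1⁻¹ * (b1⁻¹ * b2 * b3⁻¹)⁻¹, ((b1⁻¹ * b2 * b3⁻¹)⁻¹ * b3⁻¹ * b4) :: t', ?_, ?_⟩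
    · simp only [List.length_cons]; omega
    · simp only [vl, vl_mul]
      push_cast
      have h1 := key x b1
      have h2 := key x b3
      have h3 := key x⁻¹ ((b1 : G)⁻¹ * b2 * (b3 : G)⁻¹)
      rw [inv_inv] at h3
      calc (h : G) * (b1 : G)⁻¹ * ((b1 : G)⁻¹ * b2 * (b3 : G)⁻¹)⁻¹ * x *
            (((b1 : G)⁻¹ * b2 * (b3 : G)⁻¹)⁻¹ * (b3 : G)⁻¹ * vl H x b4 t')
          = (h : G) * (b1 : G)⁻¹ * (((b1 : G)⁻¹ * b2 * (b3 : G)⁻¹)⁻¹ * x *
            ((b1 : G)⁻¹ * b2 * (b3 : G)⁻¹)⁻¹) * (b3 : G)⁻¹ * vl H x b4 t' := by group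
        _ = (h : G) * ((b1 : G)⁻¹ * x⁻¹ * (b1 : G)⁻¹) * b2 * ((b3 : G)⁻¹ * x⁻¹ * (b3 : G)⁻¹) *
            vl H x b4 t' := by rw [← h3]; group
        _ = _ := by rw [← h1, ← h2]; group

theorem red_four {G : Type u} [Group G] (hG : ∀ g : G, g ^ 4 = 1) (H : Subgroup G) [Finite H] (x : G)
    (hx : x ^ 2 ∈ H) (h : H) (t : List H) (ht : Nat.card H < t.length) :
    ∃ (h' : H) (t' : List H), t'.length < t.length ∧ vl H x h' t' = vl H x h t := by
  by_contra hcon
  push Not at hcon
  have key : ∀ g : G, x * g * x = g⁻¹ * x * ((x ^ 2)⁻¹ * g⁻¹ * (x ^ 2)⁻¹) * x * g⁻¹ := by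
    intro g
    have h1 := hG (x * g)
    have h2 : x * g * x = (x * g) ^ 4 * (g⁻¹ * x⁻¹ * g⁻¹ * x⁻¹ * g⁻¹) := by
      simp only [pow_succ, pow_zero, one_mul]; group
    rw [h2, h1, one_mul]
    simp only [pow_succ, pow_zero, one_mul]
    group
  have main : ∀ (t : List H) (h : H), (∀ (h' : H) (t' : List H), t'.length < t.length →
      vl H x h' t' ≠ vl H x h t) →
      t.length ≤ Set.ncard {g : H | ∃ t' : List H, t'.length = t.length ∧ vl H x g t' = vl H x h t} := by
    intro t
    induction t with
    | nil => intro h _; exact Nat.zero_le _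
    | cons a t ih =>
      intro h hirr
      have hself : h ∈ {g : H | ∃ t' : List H, t'.length = (a :: t).length ∧
          vl H x g t' = vl H x h (a :: t)} := ⟨a :: t, rfl, rfl⟩
      cases t with
      | nil =>
        exact Nat.succ_le_of_lt ((Set.ncard_pos (Set.toFinite _)).mpr ⟨h, hself⟩)
      | cons b t2 =>
        have h1 := ih a (fun h' t' hlt he => hirr h (h' :: t')
          (by simp only [List.length_cons] at hlt ⊢; omega) (by
            show (h : G) * x * vl H x h' t' = (h : G) * x * vl H x a (b :: t2)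
            rw [he]))
        obtain ⟨S, hS⟩ : ∃ S, S = {g : H | ∃ t' : List H, t'.length = (b :: t2).length ∧
          vl H x g t' = vl H x a (b :: t2)} := ⟨_, rfl⟩
        rw [← hS] at h1
        have hone : (1 : H) ∉ S := by
          rw [hS]
          rintro ⟨t', hl, he⟩
          match t', hl with
          | c :: t3, hl =>
            refine hirr (h * ⟨x ^ 2, hx⟩ * c) t3 (by simp only [List.length_cons] at hl ⊢; omega) ?_
            rw [vl, ← he, vl, vl_mul]
            push_cast
            rw [pow_two]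
            group
        have hsub : insert h ((fun g => h * g⁻¹) '' S) ⊆ {g : H | ∃ t' : List H,
            t'.length = (a :: b :: t2).length ∧ vl H x g t' = vl H x h (a :: b :: t2)} := by
          intro y hy
          rcases hy with rfl | ⟨g, hg, rfl⟩
          · exact hself
          · rw [hS] at hg
            obtain ⟨t', hl, he⟩ := hg
            match t', hl with
            | c :: t3, hl =>
              refine ⟨((⟨x ^ 2, hx⟩ : H)⁻¹ * g⁻¹ * (⟨x ^ 2, hx⟩ : H)⁻¹) :: (g⁻¹ * c) :: t3,
                by simp only [List.length_cons] at hl ⊢; omega, ?_⟩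
              have h2 : vl H x h (a :: b :: t2) = h * x * vl H x a (b :: t2) := rfl
              rw [h2, ← he]
              simp only [vl, vl_mul]
              push_cast
              calc _ = (h : G) * ((g : G)⁻¹ * x * ((x ^ 2)⁻¹ * (g : G)⁻¹ * (x ^ 2)⁻¹) * x * (g : G)⁻¹) *
                    vl H x c t3 := by group
                _ = _ := by rw [← key g]; group
        have h3 : ((fun g => h * g⁻¹) '' S).ncard = S.ncard :=
          Set.ncard_image_of_injective S (fun g g' hgg => by simpa using hgg)
        have h4 : h ∉ (fun g => h * g⁻¹) '' S := by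
          rintro ⟨g, hg, he⟩
          apply hone
          have : g = 1 := by simpa using he
          rw [← this]
          exact hg
        have h5 := Set.ncard_le_ncard hsub (Set.toFinite _)
        rw [Set.ncard_insert_of_notMem h4 (Set.toFinite _), h3] at h5
        simp only [List.length_cons] at h1 h5 ⊢
        omega
  have h1 := main t h (fun h' t' hlt => hcon h' t' hlt)
  have h2 : Set.ncard {g : H | ∃ t' : List H, t'.length = t.length ∧ vl H x g t' = vl H x h t} ≤
      Nat.card H := by
    rw [← Set.ncard_univ]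
    exact Set.ncard_le_ncard (Set.subset_univ _) (Set.toFinite _)
  omega

theorem fin_closure {G : Type u} [Group G]
    (hstep : ∀ (H : Subgroup G) (x : G), Finite H → ∃ K : Subgroup G, Finite K ∧ H ≤ K ∧ x ∈ K)
    (S : Finset G) : Finite (closure (S : Set G)) := by
  classical
  induction S using Finset.induction_on with
  | empty =>
    rw [Finset.coe_empty, Subgroup.closure_empty]
    infer_instance
  | insert x S _ ih =>
    obtain ⟨K, hK, h1, h2⟩ := hstep _ x ih
    have h3 : closure ((insert x S : Finset G) : Set G) ≤ K := by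
      rw [closure_le, Finset.coe_insert, Set.insert_subset_iff]
      exact ⟨h2, subset_closure.trans h1⟩
    exact Finite.of_injective _ (Subgroup.inclusion_injective h3)

theorem locNilp_of_fin {G : Type u} [Group G] (p k : ℕ) (hp : p.Prime) (hG : ∀ g : G, g ^ p ^ k = 1)
    (h : ∀ S : Finset G, Finite (closure (S : Set G))) : LocNilp G := by
  rintro H ⟨S, rfl⟩
  have := h S
  have : Fact p.Prime := ⟨hp⟩
  have h1 : IsPGroup p (closure (S : Set G)) := fun g => ⟨k, Subtype.ext (by push_cast; exact hG _)⟩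
  exact h1.isNilpotent

theorem locNilp_three {G : Type u} [Group G] (hG : ∀ g : G, g ^ 3 = 1) : LocNilp G := by
  refine locNilp_of_fin 3 1 Nat.prime_three (by simpa using hG) (fin_closure ?_)
  intro H x hH
  exact ⟨closure ((H : Set G) ∪ {x}), fin_step H x 3 2 (hG x) (red_three hG H x),
    Set.subset_union_left.trans subset_closure, subset_closure (Or.inr rfl)⟩

theorem locNilp_four {G : Type u} [Group G] (hG : ∀ g : G, g ^ 4 = 1) : LocNilp G := by
  refine locNilp_of_fin 2 2 Nat.prime_two (by simpa using hG) (fin_closure ?_)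
  intro H x hH
  have h1 : Finite (closure ((H : Set G) ∪ {x ^ 2})) :=
    fin_step H (x ^ 2) _ 3 (hG _) (red_four hG H (x ^ 2) (by
      rw [← pow_mul, hG]; exact one_mem _))
  obtain ⟨K, hK⟩ : ∃ K, K = closure ((H : Set G) ∪ {x ^ 2}) := ⟨_, rfl⟩
  rw [← hK] at h1
  have h2 : H ≤ K := by rw [hK]; exact Set.subset_union_left.trans subset_closure
  have h3 : x ^ 2 ∈ K := by rw [hK]; exact subset_closure (Or.inr rfl)
  exact ⟨closure ((K : Set G) ∪ {x}), fin_step K x _ 3 (hG _) (red_four hG K x h3),
    h2.trans (Set.subset_union_left.trans subset_closure), subset_closure (Or.inr rfl)⟩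

end Pool.Agent.LibFB69
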