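import Pool.Agent.LibFB69.Final

set_option autoImplicit false

/-!
# Solvable groups of bounded derived length and finite exponent (helper file for MP_51ab1e_al)
-/

namespace Pool.Agent.LibFB69

open Subgroup commutatorElement

universe u

theorem finite_of_solv (E : ℕ) (hE : 0 < E) (d : ℕ) : ∀ (G : Type u) [Group G],
    derivedSeries G d = ⊥ → Group.FG G → (∀ x : G, x ^ E = 1) → Finite G := by
  induction d with
  | zero =>
    intro G _ h _ _
    rw [derivedSeries_zero] at h
    have : Subsingleton G := Subgroup.subsingleton_iff.mp (subsingleton_of_bot_eq_top h.symm)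
    infer_instance
  | succ d ih =>
    intro G _ h hfg hx
    obtain ⟨N, hN⟩ : ∃ N, N = derivedSeries G d := ⟨_, rfl⟩
    have hNn : N.Normal := by rw [hN]; infer_instance
    have h1 : Finite (G ⧸ N) := ih (G ⧸ N) (by
      rw [← map_derivedSeries_eq (QuotientGroup.mk'_surjective N), ← hN, Subgroup.map_eq_bot_iff,
        QuotientGroup.ker_mk']) inferInstance (fun x => by
      obtain ⟨x, rfl⟩ := QuotientGroup.mk'_surjective N x
      rw [← map_pow, hx, map_one])
    have h2 : N.FiniteIndex := Subgroup.finiteIndex_of_finite_quotient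
    have h3 : Group.FG N := inferInstance
    let _ : CommGroup N :=
      { (inferInstance : Group N) with
        mul_comm := fun a b => by
          rw [derivedSeries_succ, ← hN] at h
          have h4 : ⁅(a : G), (b : G)⁆ ∈ ⁅N, N⁆ := commutator_mem_commutator a.2 b.2
          rw [h, mem_bot, commutatorElement_eq_one_iff_mul_comm] at h4
          exact Subtype.ext h4 }
    have h4 : Finite N := CommGroup.finite_of_fg_isMulTorsion _ (fun x =>
      isOfFinOrder_iff_pow_eq_one.mpr ⟨E, hE, Subtype.ext (hx x)⟩)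
    exact Finite.of_equiv _ (Subgroup.groupEquivQuotientProdSubgroup (s := N)).symm

theorem lift_ren {G : Type u} [Group G] (f : ℕ → G) (j : ℕ) (w : FreeGroup ℕ) :
    FreeGroup.lift f (ren j w) = FreeGroup.lift (fun i => f (Nat.pair j i)) w := by
  rw [ren, lift_lift]
  simp

/-- Words whose values generate the `n`-th derived subgroup of the verbal subgroup of `W`. -/
def DW (W : Set (FreeGroup ℕ)) : ℕ → Set (FreeGroup ℕ)
  | 0 => W
  | n + 1 => Set.image2 (fun a b => ⁅ren 0 a, ren 1 b⁆) (DW W n) (DW W n)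

theorem DW_finite (W : Set (FreeGroup ℕ)) (hW : W.Finite) (n : ℕ) : (DW W n).Finite := by
  induction n with
  | zero => exact hW
  | succ n ih => exact Set.Finite.image2 _ ih ih

/-- The derived series of a subgroup. -/
def DS {G : Type u} [Group G] (R : Subgroup G) : ℕ → Subgroup G
  | 0 => R
  | n + 1 => ⁅DS R n, DS R n⁆

theorem DS_le (W : Set (FreeGroup ℕ)) (G : Type u) [Group G] (n : ℕ) :
    DS (closure (Val W G)) n ≤ closure (Val (DW W n) G) := by
  induction n with
  | zero => exact le_rfl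
  | succ n ih =>
    rw [DS]
    refine (Subgroup.commutator_mono ih ih).trans ((comm_closure _ _ (val_conj _ G) (val_conj _ G)).trans
      (closure_mono ?_))
    rintro _ ⟨_, ⟨a, ha, f, rfl⟩, _, ⟨b, hb, g, rfl⟩, rfl⟩
    refine ⟨_, ⟨a, ha, b, hb, rfl⟩,
      fun n => if (Nat.unpair n).1 = 0 then f (Nat.unpair n).2 else g (Nat.unpair n).2, ?_⟩
    dsimp only
    rw [map_commutatorElement, lift_ren, lift_ren]
    simp

theorem val_DW (W : Set (FreeGroup ℕ)) (G : Type u) [Group G] (N : Subgroup G)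
    (hN : ∀ x ∈ Val W G, x ∈ N) (n : ℕ) :
    ∀ x ∈ Val (DW W n) G, ∃ y ∈ derivedSeries N n, (y : G) = x := by
  induction n with
  | zero => intro x hx; exact ⟨⟨x, hN x hx⟩, mem_top _, rfl⟩
  | succ n ih =>
    rintro _ ⟨_, ⟨a, ha, b, hb, rfl⟩, f, rfl⟩
    dsimp only
    rw [map_commutatorElement, lift_ren, lift_ren]
    obtain ⟨y, hy, hy1⟩ := ih _ ⟨a, ha, _, rfl⟩
    obtain ⟨z, hz, hz1⟩ := ih _ ⟨b, hb, _, rfl⟩
    refine ⟨⁅y, z⁆, commutator_mem_commutator hy hz, ?_⟩
    rw [← hy1, ← hz1]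
    rfl

theorem map_derived_le {G : Type u} [Group G] (R : Subgroup G) (n : ℕ) :
    (derivedSeries R n).map R.subtype ≤ DS R n := by
  induction n with
  | zero =>
    rintro _ ⟨x, _, rfl⟩
    exact x.2
  | succ n ih =>
    rw [derivedSeries_succ, Subgroup.map_commutator, DS]
    exact Subgroup.commutator_mono ih ih

/-- If the locally nilpotent groups of `V` of exponent `p ^ k` are (solvable of bounded derived
length)-by-`X`, where `X` is a finitely based class of locally nilpotent groups, then they are finitely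
based. -/
theorem part_of_solv' {V X : (G : Type u) → [Group G] → Prop} (hV : FinBased V) {p k : ℕ}
    (hp : p.Prime) (hX : FinBased X) (hXl : ∀ (G : Type u) [Group G], X G → LocNilp G) (d : ℕ)
    (h : ∀ (G : Type u) [Group G], Part V (p ^ k) G →
      ∃ N : Subgroup G, ∃ _ : N.Normal, derivedSeries N d = ⊥ ∧ X (G ⧸ N)) :
    FinBased (Part V (p ^ k)) := by
  classical
  obtain ⟨U, hU⟩ := id hV
  obtain ⟨W, hW⟩ := hX
  have hfin := DW_finite (W : Set (FreeGroup ℕ)) W.finite_toSet d
  refine ⟨hfin.toFinset ∪ insert ((FreeGroup.of 0) ^ (p ^ k)) U, fun G _ => ?_⟩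
  rw [Finset.forall_mem_union, Finset.forall_mem_insert, sat_pow, ← hU]
  simp only [Set.Finite.mem_toFinset]
  constructor
  · intro h1
    refine ⟨fun w hw f => ?_, h1.2.2, h1.1⟩
    obtain ⟨N, hN, hNd, hNe⟩ := h G h1
    rw [hW] at hNe
    have h3 : ∀ x ∈ Val (W : Set (FreeGroup ℕ)) G, x ∈ N := by
      rintro _ ⟨w, hw, f, rfl⟩
      rw [← QuotientGroup.eq_one_iff]
      have h4 := map_lift (QuotientGroup.mk' N) f w
      rw [hNe w hw] at h4
      exact h4
    obtain ⟨y, hy, hy1⟩ := val_DW _ G N h3 d _ ⟨w, hw, f, rfl⟩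
    rw [hNd, mem_bot] at hy
    rw [← hy1, hy]
    rfl
  · rintro ⟨h1, h2, h3⟩
    refine ⟨h3, ?_, h2⟩
    intro H hH
    have hfg : Group.FG H := (Group.fg_iff_subgroup_fg H).mpr hH
    have hx : ∀ x : H, x ^ p ^ k = 1 := fun x => Subtype.ext (by push_cast; exact h2 _)
    have hlaw : ∀ w ∈ DW (W : Set (FreeGroup ℕ)) d, Sat H w := fun w hw =>
      Sat.of_injective H.subtype H.subtype_injective (h1 w hw)
    obtain ⟨R, hR⟩ : ∃ R : Subgroup H, R = closure (Val (W : Set (FreeGroup ℕ)) H) := ⟨_, rfl⟩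
    have hRn : R.Normal := by rw [hR]; exact val_normal _ H
    have hQ : X (H ⧸ R) := by
      rw [hW]
      exact sat_quot _ H R hR
    have hQn : Group.IsNilpotent (H ⧸ R) := by
      have h4 := hXl _ hQ ⊤ ((Group.fg_def).mp inferInstance)
      exact Group.isNilpotent_top.mp h4
    have hQf : Finite (H ⧸ R) := finite_of_fg_exp _ (pow_pos hp.pos k) (H ⧸ R) inferInstance (by
      intro x
      obtain ⟨x, rfl⟩ := QuotientGroup.mk'_surjective R x
      rw [← map_pow, hx, map_one])
    have h4 : R.FiniteIndex := Subgroup.finiteIndex_of_finite_quotient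
    have h5 : Group.FG R := inferInstance
    have h6 : derivedSeries R d = ⊥ := by
      have h7 : DS R d = ⊥ := by
        rw [eq_bot_iff, hR]
        refine (DS_le _ H d).trans ?_
        rw [closure_le]
        rintro _ ⟨w, hw, f, rfl⟩
        exact hlaw w hw f
      have h8 := map_derived_le R d
      rw [h7, le_bot_iff, Subgroup.map_eq_bot_iff, Subgroup.ker_subtype, le_bot_iff] at h8
      exact h8
    have hRf : Finite R := finite_of_solv _ (pow_pos hp.pos k) d R h6 h5
      (fun x => Subtype.ext (by push_cast; exact hx _))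
    have hf : Finite H := Finite.of_equiv _ (Subgroup.groupEquivQuotientProdSubgroup (s := R)).symm
    have : Fact p.Prime := ⟨hp⟩
    have h5 : IsPGroup p H := fun g => ⟨k, hx g⟩
    exact h5.isNilpotent

theorem part_of_solv {V : (G : Type u) → [Group G] → Prop} (hV : FinBased V) {p k j : ℕ} (hp : p.Prime)
    (hj : FinBased (Part V (p ^ j))) (d : ℕ)
    (h : ∀ (G : Type u) [Group G], Part V (p ^ k) G →
      ∃ N : Subgroup G, ∃ _ : N.Normal, derivedSeries N d = ⊥ ∧ ∀ x : G ⧸ N, x ^ p ^ j = 1) :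
    FinBased (Part V (p ^ k)) := by
  refine part_of_solv' hV hp hj (fun G _ h => h.2.1) d ?_
  intro G _ h1
  obtain ⟨N, hN, hNd, hNe⟩ := h G h1
  exact ⟨N, hN, hNd, hV.quot h1.1 N,
    h1.2.1.of_surjective (QuotientGroup.mk' N) (QuotientGroup.mk'_surjective N), hNe⟩

theorem inter_fb {V Y : (G : Type u) → [Group G] → Prop} (hV : FinBased V) (hY : FinBased Y) :
    FinBased (Inter V Y) := by
  classical
  obtain ⟨U, hU⟩ := hV
  obtain ⟨W, hW⟩ := hY
  refine ⟨U ∪ W, fun G _ => ?_⟩
  rw [Finset.forall_mem_union, ← hU, ← hW]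
  rfl

theorem soluble_kernel {V Y : (G : Type u) → [Group G] → Prop} (hV : FinBased V) (hS : StrongGB V)
    (hY : FinBased Y) {d : ℕ} (hd : SolvByClass V Y d) :
    FinBased (Bar V) ↔ FinBased (Bar (Inter V Y)) := by
  constructor
  · intro h
    obtain ⟨W, hW⟩ := inter_fb h hY
    refine ⟨W, fun G _ => ?_⟩
    rw [← hW]
    exact ⟨fun h => ⟨⟨h.1.1, h.2⟩, h.1.2⟩, fun h => ⟨⟨h.1.1, h.2⟩, h.1.2⟩⟩
  · intro h
    obtain ⟨c, e0, _, he0, hGB⟩ := hS
    refine (bar_iff hV he0 hGB).mpr fun p hp => ?_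
    have hp1 := Nat.prime_of_mem_primeFactors hp
    refine part_of_solv' hV hp1 h (fun G _ h => h.2) d ?_
    intro G _ hG
    obtain ⟨N, hN, hNd, hNY⟩ := hd G hG.1 hG.2.1
    exact ⟨N, hN, hNd, ⟨hV.quot hG.1 N, hNY⟩,
      hG.2.1.of_surjective (QuotientGroup.mk' N) (QuotientGroup.mk'_surjective N)⟩

theorem pow_min {G : Type u} [Group G] {x : G} {p k e : ℕ} (hp : p.Prime) (he : e ≠ 0)
    (h1 : x ^ p ^ k = 1) (h2 : x ^ e = 1) : x ^ p ^ min k (e.factorization p) = 1 := by
  have h3 := orderOf_dvd_of_pow_eq_one h1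
  have h4 := orderOf_dvd_of_pow_eq_one h2
  obtain ⟨i, hi, hi2⟩ := (Nat.dvd_prime_pow hp).mp h3
  rw [hi2, hp.pow_dvd_iff_le_factorization he] at h4
  rw [← orderOf_dvd_iff_pow_eq_one, hi2]
  exact pow_dvd_pow p (le_min hi h4)

theorem local_iff {V : (G : Type u) → [Group G] → Prop} (hV : FinBased V) (hS : StrongGB V) {d e : ℕ}
    (he : 0 < e) (hd : SolvBy V d e) :
    FinBased (Bar V) ↔ ∀ p ∈ e.primeFactors, FinBased (Part V (p ^ e.factorization p)) := by
  refine ⟨fun h p _ => part_of_bar h _, fun h => ?_⟩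
  obtain ⟨c, e0, _, he0, hGB⟩ := hS
  refine (bar_iff hV he0 hGB).mpr fun p hp => ?_
  have hp1 := Nat.prime_of_mem_primeFactors hp
  refine part_of_solv (j := min (e0.factorization p) (e.factorization p)) hV hp1 ?_ d ?_
  · by_cases hpe : p ∈ e.primeFactors
    · have h1 := h p hpe
      rw [← Nat.add_sub_of_le (min_le_right (e0.factorization p) (e.factorization p)), pow_add] at h1
      exact h1.left
    · have h1 : e.factorization p = 0 := by
        rw [← Nat.support_factorization, Finsupp.notMem_support_iff] at hpe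
        exact hpe
      rw [h1, Nat.min_zero, pow_zero]
      exact FinBased.one hV
  · intro G _ hG
    obtain ⟨N, hN, hNd, hNe⟩ := hd G hG.1 hG.2.1
    refine ⟨N, hN, hNd, fun x => pow_min hp1 he.ne' ?_ (hNe x)⟩
    obtain ⟨x, rfl⟩ := QuotientGroup.mk'_surjective N x
    rw [← map_pow, hG.2.2, map_one]

theorem positive {V : (G : Type u) → [Group G] → Prop} (hV : FinBased V) (hS : StrongGB V) {d e : ℕ}
    (he : 0 < e) (hd : SolvBy V d e) (h8 : ¬ 8 ∣ e) (hsq : ∀ p : ℕ, p.Prime → p ≠ 2 → ¬ p ^ 2 ∣ e)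
    (hZ : ∀ p : ℕ, p.Prime → 5 ≤ p → p ∣ e → FinBased (Burn.{u} p)) : FinBased (Bar V) := by
  refine (local_iff hV hS he hd).mpr fun p hp => ?_
  have hp1 := Nat.prime_of_mem_primeFactors hp
  by_cases hp2 : p = 2
  · subst hp2
    have h1 := factorization_le (k := 2) he.ne' hp1 h8
    exact small_part hV (Or.inl ((pow_dvd_pow 2 h1).trans (by norm_num)))
  · have h1 := factorization_le (k := 1) he.ne' hp1 (hsq p hp1 hp2)
    have h2 : 1 ≤ e.factorization p :=
      hp1.factorization_pos_of_dvd he.ne' (Nat.dvd_of_mem_primeFactors hp)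
    have h3 : e.factorization p = 1 := by omega
    rw [h3, pow_one]
    rcases Nat.lt_or_ge p 5 with h5 | h5
    · have h6 : p = 3 := by
        have := hp1.two_le
        interval_cases p
        · exact absurd rfl hp2
        · rfl
        · exact absurd hp1 (by norm_num)
      subst h6
      exact small_part hV (Or.inr dvd_rfl)
    · exact part_of_burn hV (hZ p hp1 h5 (Nat.dvd_of_mem_primeFactors hp))

theorem solvBy_of_gb {V : (G : Type u) → [Group G] → Prop} {c e : ℕ} (h : GB V c e) :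
    SolvBy V c e := by
  intro G _ h1 h2
  obtain ⟨⟨N, hN, hNc, _, hNe⟩, _⟩ := h G h1 h2
  refine ⟨N, hN, ?_, hNe⟩
  rw [eq_bot_iff]
  refine (Subgroup.derived_le_lower_central c).trans ?_
  have h3 := Subgroup.top_subtype_lowerCentralSeries N c
  rw [hNc, Subgroup.map_eq_bot_iff, Subgroup.ker_subtype] at h3
  exact h3

end Pool.Agent.LibFB69
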